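import Pool.Agent.Helper38.SP.Bern

/-!
Expected additive energy of a random subset.
-/

set_option autoImplicit false

open Finset

namespace Pool.Agent.Helper38.SP

/-- quadruples `a + b = c + d` -/
def quad (R : Finset ℕ) : Finset ((ℕ × ℕ) × (ℕ × ℕ)) :=
  ((R ×ˢ R) ×ˢ (R ×ˢ R)).filter (fun p => p.1.1 + p.1.2 = p.2.1 + p.2.2)

/-- the numbers in a quadruple -/
def sp (q : (ℕ × ℕ) × (ℕ × ℕ)) : Finset ℕ := {q.1.1, q.1.2, q.2.1, q.2.2}

theorem quad_card_eq {R S : Finset ℕ} (hS : S ⊆ R) :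
    ((quad S).card : ℝ) = ∑ q ∈ quad R, if sp q ⊆ S then (1 : ℝ) else 0 := by
  rw [← Finset.sum_filter, Finset.sum_const, nsmul_eq_mul, mul_one]
  congr 2
  ext ⟨⟨a, b⟩, c, d⟩
  simp only [quad, sp, mem_filter, mem_product, insert_subset_iff, singleton_subset_iff]
  constructor
  · rintro ⟨⟨⟨h1, h2⟩, h3, h4⟩, h5⟩
    exact ⟨⟨⟨⟨hS h1, hS h2⟩, hS h3, hS h4⟩, h5⟩, h1, h2, h3, h4⟩
  · rintro ⟨⟨_, h5⟩, h1, h2, h3, h4⟩
    exact ⟨⟨⟨h1, h2⟩, h3, h4⟩, h5⟩

/-- product over a pair -/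
def p2 (p : ℕ → ℝ) (x y : ℕ) : ℝ := if x = y then p x else p x * p y

theorem p2_nonneg {p : ℕ → ℝ} (h0 : ∀ a, 0 ≤ p a) (x y : ℕ) : 0 ≤ p2 p x y := by
  unfold p2
  split_ifs
  · exact h0 x
  · exact mul_nonneg (h0 x) (h0 y)

theorem prod_le_p2 {p : ℕ → ℝ} (h0 : ∀ a, 0 ≤ p a) (h1 : ∀ a, p a ≤ 1) {F : Finset ℕ} {x y : ℕ}
    (hx : x ∈ F) (hy : y ∈ F) : ∏ a ∈ F, p a ≤ p2 p x y := by
  unfold p2
  split_ifs with h
  · have := Finset.prod_le_prod_of_subset_of_le_one (f := p) (singleton_subset_iff.2 hx)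
      (fun a _ => h0 a) (fun a _ _ => h1 a)
    rwa [prod_singleton] at this
  · have := Finset.prod_le_prod_of_subset_of_le_one (f := p)
      (insert_subset_iff.2 ⟨hx, singleton_subset_iff.2 hy⟩) (fun a _ => h0 a) (fun a _ _ => h1 a)
    rwa [prod_pair h] at this

theorem prod_sp_le {p : ℕ → ℝ} (h0 : ∀ a, 0 ≤ p a) (h1 : ∀ a, p a ≤ 1)
    (q : (ℕ × ℕ) × (ℕ × ℕ)) (hq : q.1.1 + q.1.2 = q.2.1 + q.2.2) :
    ∏ a ∈ sp q, p a ≤ p q.1.1 * p q.1.2 * (p q.2.1 * p q.2.2) +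
      ((if q.1.1 = q.2.1 then p2 p q.1.1 q.1.2 else 0) +
       (if q.1.1 = q.2.2 then p2 p q.1.1 q.1.2 else 0) +
       ((if q.1.1 = q.1.2 then p2 p q.2.1 q.2.2 else 0) +
        (if q.2.1 = q.2.2 then p2 p q.1.1 q.1.2 else 0))) := by
  obtain ⟨⟨a, b⟩, c, d⟩ := q
  simp only at hq ⊢
  have m1 : a ∈ sp ((a, b), c, d) := by simp [sp]
  have m2 : b ∈ sp ((a, b), c, d) := by simp [sp]
  have m3 : c ∈ sp ((a, b), c, d) := by simp [sp]
  have m4 : d ∈ sp ((a, b), c, d) := by simp [sp]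
  have k0 : 0 ≤ p a * p b * (p c * p d) :=
    mul_nonneg (mul_nonneg (h0 a) (h0 b)) (mul_nonneg (h0 c) (h0 d))
  have t1 : 0 ≤ (if a = c then p2 p a b else 0) := by
    split_ifs
    · exact p2_nonneg h0 a b
    · exact le_rfl
  have t2 : 0 ≤ (if a = d then p2 p a b else 0) := by
    split_ifs
    · exact p2_nonneg h0 a b
    · exact le_rfl
  have t3 : 0 ≤ (if a = b then p2 p c d else 0) := by
    split_ifs
    · exact p2_nonneg h0 c d
    · exact le_rfl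
  have t4 : 0 ≤ (if c = d then p2 p a b else 0) := by
    split_ifs
    · exact p2_nonneg h0 a b
    · exact le_rfl
  by_cases e1 : a = c
  · have := prod_le_p2 h0 h1 m1 m2
    rw [if_pos e1]
    linarith
  by_cases e2 : a = d
  · have := prod_le_p2 h0 h1 m1 m2
    rw [if_pos e2]
    linarith
  by_cases e3 : a = b
  · have := prod_le_p2 h0 h1 m3 m4
    rw [if_pos e3]
    linarith
  by_cases e4 : c = d
  · have := prod_le_p2 h0 h1 m1 m2
    rw [if_pos e4]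
    linarith
  have e5 : b ≠ c := fun h => e2 (by omega)
  have e6 : b ≠ d := fun h => e1 (by omega)
  have h2 : ∏ x ∈ sp ((a, b), c, d), p x = p a * p b * (p c * p d) := by
    unfold sp
    rw [prod_insert (by simp [e1, e2, e3]), prod_insert (by simp [e5, e6]), prod_insert (by simp [e4]),
      prod_singleton]
    ring
  rw [h2]
  linarith

theorem sum_p2 {p : ℕ → ℝ} (h0 : ∀ a, 0 ≤ p a) (R : Finset ℕ) :
    ∑ v ∈ R ×ˢ R, p2 p v.1 v.2 ≤ (∑ a ∈ R, p a) ^ 2 + ∑ a ∈ R, p a := by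
  have h : ∀ v ∈ R ×ˢ R, p2 p v.1 v.2 ≤ p v.1 * p v.2 + (if v.1 = v.2 then p v.1 else 0) := by
    intro v _
    unfold p2
    split_ifs
    · have := mul_nonneg (h0 v.1) (h0 v.2)
      linarith
    · linarith
  refine (Finset.sum_le_sum h).trans (le_of_eq ?_)
  rw [Finset.sum_add_distrib, Finset.sum_product, Finset.sum_product, sq, Finset.sum_mul_sum]
  congr 1
  refine Finset.sum_congr rfl (fun a ha => ?_)
  simp only
  rw [Finset.sum_ite_eq, if_pos ha]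

theorem EX_quad {p : ℕ → ℝ} (h0 : ∀ a, 0 ≤ p a) (h1 : ∀ a, p a ≤ 1) (R : Finset ℕ) :
    EX p R (fun S => ((quad S).card : ℝ)) ≤
      ∑ q ∈ quad R, p q.1.1 * p q.1.2 * (p q.2.1 * p q.2.2) +
        4 * ((∑ a ∈ R, p a) ^ 2 + ∑ a ∈ R, p a) := by
  classical
  have e1 : EX p R (fun S => ((quad S).card : ℝ)) =
      EX p R (fun S => ∑ q ∈ quad R, if sp q ⊆ S then (1 : ℝ) else 0) := by
    unfold EX
    refine Finset.sum_congr rfl (fun S hS => ?_)
    show pw p R S * ((quad S).card : ℝ) = pw p R S * ∑ q ∈ quad R, if sp q ⊆ S then (1 : ℝ) else 0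
    rw [quad_card_eq (mem_powerset.1 hS)]
  rw [e1, EX_count p R (quad R) sp ?_]
  swap
  · rintro ⟨⟨a, b⟩, c, d⟩ hq
    simp only [quad, mem_filter, mem_product] at hq
    simp only [sp, insert_subset_iff, singleton_subset_iff]
    exact ⟨hq.1.1.1, hq.1.1.2, hq.1.2.1, hq.1.2.2⟩
  have hmem : ∀ q ∈ quad R, q.1.1 + q.1.2 = q.2.1 + q.2.2 := fun q hq => (mem_filter.1 hq).2
  refine (Finset.sum_le_sum (fun q hq => prod_sp_le h0 h1 q (hmem q hq))).trans ?_
  rw [Finset.sum_add_distrib, Finset.sum_add_distrib, Finset.sum_add_distrib,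
    Finset.sum_add_distrib]
  have key : ∀ (P : (ℕ × ℕ) × (ℕ × ℕ) → Prop) [DecidablePred P]
      (f : (ℕ × ℕ) × (ℕ × ℕ) → ℕ × ℕ),
      (∀ q ∈ quad R, P q → f q ∈ R ×ˢ R) →
      (∀ q ∈ quad R, ∀ q' ∈ quad R, P q → P q' → f q = f q' → q = q') →
      ∑ q ∈ quad R, (if P q then p2 p (f q).1 (f q).2 else 0) ≤
        (∑ a ∈ R, p a) ^ 2 + ∑ a ∈ R, p a := by
    intro P _ f hf hinj
    rw [← Finset.sum_filter]
    have h2 : ∑ q ∈ (quad R).filter P, p2 p (f q).1 (f q).2 =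
        ∑ v ∈ ((quad R).filter P).image f, p2 p v.1 v.2 := by
      rw [Finset.sum_image]
      intro q hq q' hq' h
      rw [mem_coe, mem_filter] at hq hq'
      exact hinj q hq.1 q' hq'.1 hq.2 hq'.2 h
    rw [h2]
    refine (Finset.sum_le_sum_of_subset_of_nonneg ?_ (fun v _ _ => p2_nonneg h0 _ _)).trans
      (sum_p2 h0 R)
    intro v hv
    obtain ⟨q, hq, rfl⟩ := mem_image.1 hv
    exact hf q (mem_filter.1 hq).1 (mem_filter.1 hq).2
  have k1 := key (fun q => q.1.1 = q.2.1) (fun q => q.1)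
    (by
      intro q hq _
      exact (mem_product.1 (mem_filter.1 hq).1).1)
    (by
      rintro ⟨⟨a, b⟩, c, d⟩ hq ⟨⟨a', b'⟩, c', d'⟩ hq' h h' he
      have g1 := (mem_filter.1 hq).2
      have g2 := (mem_filter.1 hq').2
      simp only [Prod.mk.injEq] at g1 g2 h h' he ⊢
      omega)
  have k2 := key (fun q => q.1.1 = q.2.2) (fun q => q.1)
    (by
      intro q hq _
      exact (mem_product.1 (mem_filter.1 hq).1).1)
    (by
      rintro ⟨⟨a, b⟩, c, d⟩ hq ⟨⟨a', b'⟩, c', d'⟩ hq' h h' he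
      have g1 := (mem_filter.1 hq).2
      have g2 := (mem_filter.1 hq').2
      simp only [Prod.mk.injEq] at g1 g2 h h' he ⊢
      omega)
  have k3 := key (fun q => q.1.1 = q.1.2) (fun q => q.2)
    (by
      intro q hq _
      exact (mem_product.1 (mem_filter.1 hq).1).2)
    (by
      rintro ⟨⟨a, b⟩, c, d⟩ hq ⟨⟨a', b'⟩, c', d'⟩ hq' h h' he
      have g1 := (mem_filter.1 hq).2
      have g2 := (mem_filter.1 hq').2
      simp only [Prod.mk.injEq] at g1 g2 h h' he ⊢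
      omega)
  have k4 := key (fun q => q.2.1 = q.2.2) (fun q => q.1)
    (by
      intro q hq _
      exact (mem_product.1 (mem_filter.1 hq).1).1)
    (by
      rintro ⟨⟨a, b⟩, c, d⟩ hq ⟨⟨a', b'⟩, c', d'⟩ hq' h h' he
      have g1 := (mem_filter.1 hq).2
      have g2 := (mem_filter.1 hq').2
      simp only [Prod.mk.injEq] at g1 g2 h h' he ⊢
      omega)
  linarith

/-- the main term as a sum of squares -/
theorem sum_quad_eq (p : ℕ → ℝ) (M : ℕ) :
    ∑ q ∈ quad (range M), p q.1.1 * p q.1.2 * (p q.2.1 * p q.2.2) =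
      ∑ n ∈ range (2 * M), (∑ v ∈ (range M ×ˢ range M).filter (fun v => v.1 + v.2 = n),
        p v.1 * p v.2) ^ 2 := by
  classical
  have hmaps : ∀ q ∈ quad (range M), q.1.1 + q.1.2 ∈ range (2 * M) := by
    intro q hq
    have := (mem_filter.1 hq).1
    rw [mem_product, mem_product, mem_product, mem_range, mem_range, mem_range, mem_range] at this
    rw [mem_range]
    omega
  rw [← Finset.sum_fiberwise_of_maps_to hmaps]
  refine Finset.sum_congr rfl (fun n _ => ?_)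
  rw [sq, Finset.sum_mul_sum, ← Finset.sum_product']
  refine Finset.sum_congr ?_ (fun q _ => rfl)
  ext ⟨⟨a, b⟩, c, d⟩
  simp only [quad, mem_filter, mem_product]
  constructor
  · rintro ⟨⟨⟨h1, h2⟩, h3⟩, h4⟩
    exact ⟨⟨h1, h4⟩, h2, by omega⟩
  · rintro ⟨⟨h1, h4⟩, h2, h3⟩
    exact ⟨⟨⟨h1, h2⟩, by omega⟩, h4⟩

end Pool.Agent.Helper38.SP
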