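import Mathlib

/-!
Positive definite functions on a subgroup of the circle and the associated nonnegative weights.
-/

set_option autoImplicit false

open Finset ComplexOrder

namespace Pool.Agent.Helper38.SP

/-- positive definiteness on a set of elements of the circle -/
def PosDef (Z : Set Circle) (φ : Circle → ℂ) : Prop :=
  ∀ (S : Finset Circle), (∀ s ∈ S, s ∈ Z) → ∀ z : Circle → ℂ,
    0 ≤ ∑ s ∈ S, ∑ t ∈ S, z s * (starRingEnd ℂ) (z t) * φ (s / t)

theorem norm_le_one {Z : Set Circle} {φ : Circle → ℂ} (hpd : PosDef Z φ) (h1 : φ 1 = 1)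
    (hZ : (1 : Circle) ∈ Z) {ζ : Circle} (hζ : ζ ∈ Z) : ‖φ ζ‖ ≤ 1 := by
  classical
  by_cases hne : ζ = 1
  · rw [hne, h1, norm_one]
  have key : ∀ u v : ℂ, 0 ≤ u * (starRingEnd ℂ) u + u * (starRingEnd ℂ) v * φ ζ +
      (v * (starRingEnd ℂ) u * φ ζ⁻¹ + v * (starRingEnd ℂ) v) := by
    intro u v
    have h := hpd {ζ, 1} (by
      intro s hs
      rcases mem_insert.1 hs with h | h
      · rw [h]; exact hζ
      · rw [mem_singleton.1 h]; exact hZ) (fun s => if s = ζ then u else v)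
    rw [sum_pair hne, sum_pair hne, sum_pair hne] at h
    have hne' : ¬ (1 : Circle) = ζ := fun h => hne h.symm
    simp only [if_true, if_neg hne', div_self', div_one, one_div, h1, mul_one] at h
    exact h
  have k1 := key 1 1
  have k2 := key 1 Complex.I
  rw [Complex.le_def] at k1 k2
  have k1' := k1.2
  have k2' := k2.2
  simp at k1' k2'
  have hconj : φ ζ⁻¹ = (starRingEnd ℂ) (φ ζ) := by
    apply Complex.ext
    · rw [Complex.conj_re]
      linarith
    · rw [Complex.conj_im]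
      linarith
  have k3 := key 1 (-φ ζ)
  rw [hconj, Complex.le_def] at k3
  have k3' := k3.1
  simp at k3'
  have h4 : ‖φ ζ‖ ^ 2 = (φ ζ).re * (φ ζ).re + (φ ζ).im * (φ ζ).im := by
    rw [← Complex.normSq_eq_norm_sq, Complex.normSq_apply]
  have h5 : ‖φ ζ‖ ^ 2 ≤ 1 := by
    rw [h4]
    nlinarith
  have := norm_nonneg (φ ζ)
  nlinarith

/-- differences -/
noncomputable def Df [DecidableEq Circle] (S : Finset Circle) : Finset Circle :=
  (S ×ˢ S).image (fun p => p.1 / p.2)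

/-- number of representations of a quotient -/
noncomputable def cnt [DecidableEq Circle] (S : Finset Circle) (η : Circle) : ℕ :=
  ((S ×ˢ S).filter (fun p => p.1 / p.2 = η)).card

/-- coefficients -/
noncomputable def gam [DecidableEq Circle] (S : Finset Circle) (φ : Circle → ℂ) (η : Circle) : ℂ :=
  ((cnt S η : ℝ) / S.card : ℝ) * φ η

/-- the weights -/
noncomputable def wt (S : Finset Circle) (φ : Circle → ℂ) (a : ℕ) : ℝ :=
  ((S.card : ℝ)⁻¹ * ∑ s ∈ S, ∑ t ∈ S, φ (s / t) * (((s / t)⁻¹ : Circle) : ℂ) ^ a : ℂ).re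

theorem cnt_le [DecidableEq Circle] (S : Finset Circle) (η : Circle) : cnt S η ≤ S.card := by
  unfold cnt
  refine card_le_card_of_injOn (fun p => p.2) ?_ ?_
  · intro p hp
    exact mem_coe.2 (mem_product.1 (mem_filter.1 (mem_coe.1 hp)).1).2
  · rintro ⟨a, b⟩ hp ⟨a', b'⟩ hp' h
    have h1 := (mem_filter.1 (mem_coe.1 hp)).2
    have h2 := (mem_filter.1 (mem_coe.1 hp')).2
    simp only at h h1 h2
    subst h
    have h3 : a = a' := by
      rw [div_eq_iff_eq_mul] at h1 h2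
      rw [h1, h2]
    rw [h3]

theorem cnt_one [DecidableEq Circle] (S : Finset Circle) : cnt S 1 = S.card := by
  refine le_antisymm (cnt_le S 1) ?_
  unfold cnt
  refine card_le_card_of_injOn (fun s => (s, s)) ?_ ?_
  · intro s hs
    exact mem_coe.2 (mem_filter.2 ⟨mem_product.2 ⟨hs, hs⟩, div_self' s⟩)
  · intro a _ b _ h
    exact (Prod.mk.inj h).1

theorem cnt_ge [DecidableEq Circle] (S : Finset Circle) (η : Circle) :
    (S.filter (fun s => s * η ∈ S)).card ≤ cnt S η := by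
  unfold cnt
  refine card_le_card_of_injOn (fun s => (s * η, s)) ?_ ?_
  · intro s hs
    have hs' := mem_filter.1 (mem_coe.1 hs)
    exact mem_coe.2 (mem_filter.2 ⟨mem_product.2 ⟨hs'.2, hs'.1⟩, by simp⟩)
  · intro a _ b _ h
    exact (Prod.mk.inj h).2

theorem conj_circle_pow (t : Circle) (a : ℕ) :
    (starRingEnd ℂ) (((t⁻¹ : Circle) : ℂ) ^ a) = (t : ℂ) ^ a := by
  rw [map_pow, Circle.coe_inv_eq_conj, Complex.conj_conj]

theorem wt_complex {Z : Set Circle} {φ : Circle → ℂ} (hpd : PosDef Z φ) {S : Finset Circle}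
    (hS : ∀ s ∈ S, s ∈ Z) (a : ℕ) : 0 ≤ wt S φ a ∧ ((wt S φ a : ℝ) : ℂ) =
      (S.card : ℝ)⁻¹ * ∑ s ∈ S, ∑ t ∈ S, φ (s / t) * (((s / t)⁻¹ : Circle) : ℂ) ^ a := by
  have h := hpd S hS (fun s => (((s⁻¹ : Circle) : ℂ)) ^ a)
  have h2 : ∑ s ∈ S, ∑ t ∈ S, (((s⁻¹ : Circle) : ℂ)) ^ a *
      (starRingEnd ℂ) ((((t⁻¹ : Circle) : ℂ)) ^ a) * φ (s / t) =
      ∑ s ∈ S, ∑ t ∈ S, φ (s / t) * (((s / t)⁻¹ : Circle) : ℂ) ^ a := by
    refine Finset.sum_congr rfl (fun s _ => Finset.sum_congr rfl (fun t _ => ?_))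
    rw [conj_circle_pow, ← mul_pow, mul_comm]
    congr 2
    rw [← Circle.coe_mul]
    congr 1
    rw [inv_div, div_eq_inv_mul]
  rw [h2, Complex.le_def] at h
  simp only [Complex.zero_re, Complex.zero_im] at h
  set X : ℂ := ∑ s ∈ S, ∑ t ∈ S, φ (s / t) * (((s / t)⁻¹ : Circle) : ℂ) ^ a with hX
  have h3 : X = ((X.re : ℝ) : ℂ) := by
    apply Complex.ext
    · simp
    · rw [Complex.ofReal_im]
      exact h.2.symm
  have h4 : wt S φ a = (S.card : ℝ)⁻¹ * X.re := by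
    unfold wt
    rw [← hX, Complex.re_ofReal_mul]
  have h5 : ((wt S φ a : ℝ) : ℂ) = (((S.card : ℝ)⁻¹ : ℝ) : ℂ) * ((X.re : ℝ) : ℂ) := by
    rw [← Complex.ofReal_mul]
    exact congrArg _ h4
  refine ⟨?_, ?_⟩
  · rw [h4]
    exact mul_nonneg (inv_nonneg.2 (Nat.cast_nonneg _)) h.1
  · exact h5.trans (congrArg (fun v : ℂ => (((S.card : ℝ)⁻¹ : ℝ) : ℂ) * v) h3.symm)

theorem wt_sum [DecidableEq Circle] {Z : Set Circle} {φ : Circle → ℂ} (hpd : PosDef Z φ)
    {S : Finset Circle} (hS : ∀ s ∈ S, s ∈ Z) (a : ℕ) :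
    ((wt S φ a : ℝ) : ℂ) = ∑ η ∈ Df S, gam S φ η * (((η⁻¹ : Circle)) : ℂ) ^ a := by
  rw [(wt_complex hpd hS a).2, ← Finset.sum_product']
  have hmaps : ∀ p ∈ S ×ˢ S, p.1 / p.2 ∈ Df S := fun p hp => mem_image_of_mem _ hp
  rw [← Finset.sum_fiberwise_of_maps_to hmaps, Finset.mul_sum]
  refine Finset.sum_congr rfl (fun η _ => ?_)
  rw [Finset.sum_congr rfl (g := fun _ => φ η * (((η⁻¹ : Circle)) : ℂ) ^ a)
    (fun p hp => by rw [(mem_filter.1 hp).2]), Finset.sum_const, nsmul_eq_mul]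
  unfold gam cnt
  push_cast
  ring

theorem norm_gam_le [DecidableEq Circle] (φ : Circle → ℂ) (S : Finset Circle) (η : Circle) :
    ‖gam S φ η‖ ≤ ‖φ η‖ := by
  unfold gam
  rw [norm_mul, Complex.norm_real, Real.norm_eq_abs, abs_of_nonneg (by positivity)]
  have h1 : (cnt S η : ℝ) / S.card ≤ 1 := by
    rcases S.eq_empty_or_nonempty with h0 | h0
    · rw [h0]; simp
    · have : (0 : ℝ) < S.card := by exact_mod_cast card_pos.2 h0
      rw [div_le_one this]
      exact_mod_cast cnt_le S η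
  have h2 := norm_nonneg (φ η)
  nlinarith

theorem gam_one [DecidableEq Circle] {φ : Circle → ℂ} {S : Finset Circle} (hS : S.Nonempty)
    (h1 : φ 1 = 1) : gam S φ 1 = 1 := by
  unfold gam
  have : (S.card : ℝ) ≠ 0 := by exact_mod_cast (card_pos.2 hS).ne'
  rw [cnt_one, h1, mul_one, div_self this]
  simp

theorem gam_close [DecidableEq Circle] {φ : Circle → ℂ} {S : Finset Circle} (hS : S.Nonempty)
    {η : Circle} (h : ‖φ η‖ ≤ 1) {ε : ℝ}
    (hc : (1 - ε) * S.card ≤ (S.filter (fun s => s * η ∈ S)).card) : ‖gam S φ η - φ η‖ ≤ ε := by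
  have hS0 : (0 : ℝ) < S.card := by exact_mod_cast card_pos.2 hS
  have h1 : gam S φ η - φ η = (((cnt S η : ℝ) / S.card - 1 : ℝ) : ℂ) * φ η := by
    unfold gam
    push_cast
    ring
  rw [h1, norm_mul, Complex.norm_real, Real.norm_eq_abs]
  have h2 : (cnt S η : ℝ) / S.card ≤ 1 := by
    rw [div_le_one hS0]
    exact_mod_cast cnt_le S η
  have h3 : 1 - ε ≤ (cnt S η : ℝ) / S.card := by
    rw [le_div_iff₀ hS0]
    refine hc.trans ?_
    exact_mod_cast cnt_ge S η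
  have h4 : |(cnt S η : ℝ) / S.card - 1| ≤ ε := by
    rw [abs_le]
    constructor <;> linarith
  have h5 := norm_nonneg (φ η)
  have h6 : 0 ≤ ε := by linarith
  calc |(cnt S η : ℝ) / S.card - 1| * ‖φ η‖ ≤ ε * 1 := mul_le_mul h4 h h5 h6
    _ = ε := mul_one _

end Pool.Agent.Helper38.SP
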