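import Pool.Agent.Helper38.SP.Cuts
import Pool.Agent.Helper38.SP.PD
import Pool.Agent.Helper80.SP.Weights
import Pool.Agent.Helper80.SP.Union

/-!
One scale of the construction for a positive definite function on a group of frequencies.
-/

set_option autoImplicit false

open Finset Filter

namespace Pool.Agent.Helper38.SP

open Pool.Agent.Helper5.RC (sol)
open Pool.Agent.Helper80.SP (GoodS energyW meanW)

theorem sol_eq_quad {m : ℕ} {B : Finset ℕ} (hB : ∀ b ∈ B, 2 * b < m) : sol m B = quad B := by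
  unfold Pool.Agent.Helper5.RC.sol quad
  refine filter_congr (fun p hp => ?_)
  rw [mem_product, mem_product, mem_product] at hp
  have h1 := hB _ hp.1.1
  have h2 := hB _ hp.1.2
  have h3 := hB _ hp.2.1
  have h4 := hB _ hp.2.2
  rw [Nat.mod_eq_of_lt (by omega), Nat.mod_eq_of_lt (by omega)]

theorem gam_zero [DecidableEq Circle] {S : Finset Circle} {φ : Circle → ℂ} {η : Circle}
    (h : η ∉ Df S) : gam S φ η = 0 := by
  have h0 : cnt S η = 0 := by
    unfold cnt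
    rw [card_eq_zero, filter_eq_empty_iff]
    intro p hp he
    exact h (mem_image.2 ⟨p, hp, he⟩)
  unfold gam
  rw [h0]
  simp

/-- One scale. -/
theorem oneScale [DecidableEq Circle] (Z : Subgroup Circle) (φ : Circle → ℂ)
    (hpd : PosDef (Z : Set Circle) φ) (h1 : φ 1 = 1) {Φ : ℝ}
    (hΦ : ∀ S : Finset Circle, (∀ s ∈ S, s ∈ Z) → ∑ s ∈ S, ‖φ s‖ ^ 4 ≤ Φ)
    (F : Finset Circle) (hF : ∀ ζ ∈ F, ζ ∈ Z) (s : ℕ) (hs : 0 < s)
    (S : Finset Circle) (hSne : S.Nonempty) (hSZ : ∀ t ∈ S, t ∈ Z)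
    (hfol : ∀ ζ ∈ F, (1 - 1 / (2 * (s : ℝ))) * S.card ≤ (S.filter (fun t => t * ζ ∈ S)).card) :
    ∀ᶠ j : ℕ in atTop, ∃ B : Finset ℕ, GoodS φ F (4 * (Φ + 9)) s j B := by
  have hΦ0 : 0 ≤ Φ := by
    have := hΦ ∅ (by simp)
    simpa using this
  have hsR : (1 : ℝ) ≤ s := by exact_mod_cast hs
  set D : Finset Circle := Df S with hD
  have hDZ : ∀ η ∈ D, η ∈ Z := by
    intro η hη
    obtain ⟨p, hp, rfl⟩ := mem_image.1 hη
    rw [mem_product] at hp
    exact Z.div_mem (hSZ _ hp.1) (hSZ _ hp.2)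
  have hφ1 : ∀ η ∈ Z, ‖φ η‖ ≤ 1 := fun η hη => norm_le_one hpd h1 Z.one_mem hη
  obtain ⟨C1, hC1, hen⟩ := energyW D
  have hmean := fun ζ => meanW D ζ
  choose Cz hCz hmeanW using hmean
  set F' : Finset Circle := insert 1 F with hF'
  have hF'Z : ∀ ζ ∈ F', ζ ∈ Z := by
    intro ζ hζ
    rcases mem_insert.1 hζ with h | h
    · rw [h]; exact Z.one_mem
    · exact hF ζ h
  set C : ℝ := ∑ ζ ∈ F', Cz ζ with hC
  have hC0 : 0 ≤ C := Finset.sum_nonneg (fun ζ _ => hCz ζ)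
  have hCle : ∀ ζ ∈ F', Cz ζ ≤ C := fun ζ hζ =>
    Finset.single_le_sum (f := Cz) (fun i _ => hCz i) hζ
  obtain ⟨κ, hκ⟩ : ∃ κ : ℕ, 8 * s ≤ 2 ^ κ := ⟨8 * s, Nat.lt_two_pow_self.le⟩
  set K0 : ℕ := 2 ^ κ with hK0
  have hK0R : 8 * (s : ℝ) ≤ K0 := by exact_mod_cast hκ
  set FF : Finset (Circle × ℕ) := F' ×ˢ range (K0 + 1) with hFF
  set X : ℝ := 1 + D.card + 8 * C + C1 + 12 * C * s + 2 * (FF.card * (48 * s) ^ 2) with hX
  have htend : Tendsto (fun j : ℕ => √((2 : ℝ) ^ j)) atTop atTop :=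
    Real.tendsto_sqrt_atTop.comp (tendsto_pow_atTop_atTop_of_one_lt (by norm_num))
  filter_upwards [htend.eventually_ge_atTop X, eventually_ge_atTop (κ + 1)] with j hj hjκ
  set sm : ℝ := √((2 : ℝ) ^ j) with hsm
  have q1 : 0 ≤ 12 * C * s := by positivity
  have q2 : 0 ≤ 2 * ((FF.card : ℝ) * (48 * s) ^ 2) := by positivity
  have q3 : (0 : ℝ) ≤ D.card := Nat.cast_nonneg _
  have hsm1 : 1 ≤ sm := by linarith
  have hsm0 : 0 < sm := by linarith
  have hsm2 : sm * sm = (2 : ℝ) ^ j := Real.mul_self_sqrt (by positivity)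
  have hsmle : sm ≤ (2 : ℝ) ^ j := by
    rw [← hsm2]
    nlinarith
  set M : ℕ := 2 ^ (j - 1) with hMdef
  have hM2 : 2 * M = 2 ^ j := by
    rw [hMdef, ← pow_succ']
    congr 1
    omega
  have hM2R : 2 * (M : ℝ) = (2 : ℝ) ^ j := by exact_mod_cast hM2
  set L : ℕ := 2 ^ (j - 1 - κ) with hLdef
  have hL0 : 0 < L := by positivity
  have hMKL : M = K0 * L := by
    rw [hMdef, hK0, hLdef, ← pow_add]
    congr 1
    omega
  have hMKLR : (M : ℝ) = K0 * L := by exact_mod_cast hMKL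
  -- the weights
  set w : ℕ → ℝ := fun a => wt S φ (2 ^ j + a) with hw
  set g : Circle → ℂ := fun η => gam S φ η * ((η⁻¹ : Circle) : ℂ) ^ (2 ^ j) with hg
  have hw0 : ∀ a, 0 ≤ w a := fun a => (wt_complex hpd hSZ (2 ^ j + a)).1
  have hwg : ∀ a, ((w a : ℝ) : ℂ) = ∑ z ∈ D, g z * ((z⁻¹ : Circle) : ℂ) ^ a := by
    intro a
    have := wt_sum hpd hSZ (2 ^ j + a)
    simp only [hw, hg]
    rw [this]
    refine Finset.sum_congr rfl (fun z _ => ?_)
    rw [pow_add]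
    ring
  have hgn : ∀ z, ‖g z‖ = ‖gam S φ z‖ := by
    intro z
    simp only [hg]
    rw [norm_mul, norm_pow, Circle.norm_coe, one_pow, mul_one]
  have hg1 : ∀ z ∈ D, ‖g z‖ ≤ 1 := fun z hz => by
    rw [hgn]
    exact (norm_gam_le φ S z).trans (hφ1 z (hDZ z hz))
  have hg4 : ∑ z ∈ D, ‖g z‖ ^ 4 ≤ Φ := by
    refine le_trans (Finset.sum_le_sum (fun z _ => ?_)) (hΦ D hDZ)
    rw [hgn]
    exact pow_le_pow_left₀ (norm_nonneg _) (norm_gam_le φ S z) 4
  have hwD : ∀ a, w a ≤ D.card := by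
    intro a
    have h2 : |w a| ≤ D.card := by
      rw [← Real.norm_eq_abs, ← Complex.norm_real, hwg a]
      refine (norm_sum_le _ _).trans ?_
      refine (Finset.sum_le_sum (g := fun _ => (1 : ℝ)) (fun z hz => ?_)).trans ?_
      · rw [norm_mul, norm_pow, Circle.norm_coe, one_pow, mul_one]
        exact hg1 z hz
      · simp
    exact (le_abs_self _).trans h2
  set p : ℕ → ℝ := fun a => w a / sm with hp
  have hp0 : ∀ a, 0 ≤ p a := fun a => div_nonneg (hw0 a) hsm0.le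
  have hp1 : ∀ a, p a ≤ 1 := fun a => by
    rw [hp]
    simp only
    rw [div_le_one hsm0]
    exact (hwD a).trans (by linarith)
  have h1D : (1 : Circle) ∈ D := by
    obtain ⟨t, ht⟩ := hSne
    exact mem_image.2 ⟨(t, t), mem_product.2 ⟨ht, ht⟩, div_self' t⟩
  -- means
  have hmean1 : ∀ ζ ∈ F', ∀ y : ℕ,
      ‖∑ a ∈ range y, (p a : ℂ) * (ζ : ℂ) ^ (2 ^ j + a) - gam S φ ζ * y / sm‖ ≤ C / sm := by
    intro ζ hζ y
    have h2 := hmeanW ζ g hg1 w hwg y
    have h3 : (if ζ ∈ D then g ζ else 0) * (ζ : ℂ) ^ (2 ^ j) = gam S φ ζ := by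
      split_ifs with h
      · simp only [hg]
        rw [mul_assoc, ← mul_pow, ← Circle.coe_mul, inv_mul_cancel, Circle.coe_one, one_pow, mul_one]
      · rw [gam_zero h, zero_mul]
    have h4 : ∑ a ∈ range y, (p a : ℂ) * (ζ : ℂ) ^ (2 ^ j + a) - gam S φ ζ * y / sm =
        ((ζ : ℂ) ^ (2 ^ j) / sm) * (∑ a ∈ range y, (w a : ℂ) * (ζ : ℂ) ^ a -
          (if ζ ∈ D then g ζ else 0) * y) := by
      rw [← h3, mul_sub, Finset.mul_sum]
      congr 1
      · refine Finset.sum_congr rfl (fun a _ => ?_)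
        simp only [hp]
        push_cast
        rw [pow_add]
        ring
      · ring
    rw [h4, norm_mul, norm_div, norm_pow, Circle.norm_coe, one_pow, Complex.norm_real,
      Real.norm_eq_abs, abs_of_pos hsm0, one_div, inv_mul_eq_div]
    exact div_le_div_of_nonneg_right (h2.trans (hCle ζ hζ)) hsm0.le
  have hmean1' : ∀ y : ℕ, |∑ a ∈ range y, p a - y / sm| ≤ C / sm := by
    intro y
    have h2 := hmean1 1 (mem_insert_self _ _) y
    rw [gam_one hSne h1] at h2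
    have h3 : ∑ a ∈ range y, (p a : ℂ) * ((1 : Circle) : ℂ) ^ (2 ^ j + a) - 1 * (y : ℂ) / sm =
        ((∑ a ∈ range y, p a - y / sm : ℝ) : ℂ) := by
      push_cast
      simp
    rw [h3, Complex.norm_real, Real.norm_eq_abs] at h2
    exact h2
  have hCsm : C / sm ≤ sm / 8 := by
    rw [div_le_div_iff₀ hsm0 (by norm_num), hsm2]
    have : 8 * C ≤ sm := by linarith
    linarith
  have hMsm : (M : ℝ) / sm = sm / 2 := by
    rw [div_eq_div_iff hsm0.ne' (by norm_num), hsm2]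
    linarith
  have hP : ∑ a ∈ range M, p a ≤ sm := by
    have := (abs_le.1 (hmean1' M)).2
    rw [hMsm] at this
    linarith
  have hP0 : 0 ≤ ∑ a ∈ range M, p a := Finset.sum_nonneg (fun a _ => hp0 a)
  -- energy
  have hE : EX p (range M) (fun S => ((quad S).card : ℝ)) ≤ (Φ + 9) * (2 : ℝ) ^ j := by
    refine (EX_quad hp0 hp1 (range M)).trans ?_
    rw [sum_quad_eq]
    have h2 : ∑ n ∈ range (2 * M), (∑ v ∈ (range M ×ˢ range M).filter (fun v => v.1 + v.2 = n),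
        p v.1 * p v.2) ^ 2 = (sm ^ 4)⁻¹ * ∑ n ∈ range (2 * M),
        (∑ v ∈ (range M ×ˢ range M).filter (fun v => v.1 + v.2 = n), w v.1 * w v.2) ^ 2 := by
      rw [Finset.mul_sum]
      refine Finset.sum_congr rfl (fun n _ => ?_)
      have h3 : ∑ v ∈ (range M ×ˢ range M).filter (fun v => v.1 + v.2 = n), p v.1 * p v.2 =
          (sm ^ 2)⁻¹ * ∑ v ∈ (range M ×ˢ range M).filter (fun v => v.1 + v.2 = n), w v.1 * w v.2 := by
        rw [Finset.mul_sum]
        refine Finset.sum_congr rfl (fun v _ => ?_)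
        simp only [hp]
        field_simp
      rw [h3]
      field_simp
    have h3 := hen g hg1 w hwg M
    have hsm4 : sm ^ 4 = ((2 : ℝ) ^ j) ^ 2 := by rw [← hsm2]; ring
    have hj1 : (1 : ℝ) ≤ (2 : ℝ) ^ j := by linarith
    have h4 : (sm ^ 4)⁻¹ * (4 * (M : ℝ) ^ 3 * ∑ z ∈ D, ‖g z‖ ^ 4 + C1 * ((M : ℝ) + 1) ^ 2) ≤
        Φ / 2 * (2 : ℝ) ^ j + C1 := by
      rw [hsm4, inv_mul_le_iff₀ (by positivity)]
      have hM1 : (M : ℝ) = (2 : ℝ) ^ j / 2 := by linarith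
      have hM1' : (1 : ℝ) ≤ M := by
        have : 1 ≤ M := Nat.one_le_two_pow
        exact_mod_cast this
      have h5 : 4 * (M : ℝ) ^ 3 * ∑ z ∈ D, ‖g z‖ ^ 4 ≤ 4 * (M : ℝ) ^ 3 * Φ := by gcongr
      have h6 : 4 * (M : ℝ) ^ 3 * Φ = ((2 : ℝ) ^ j) ^ 2 * (Φ / 2 * (2 : ℝ) ^ j) := by
        rw [hM1]
        ring
      have h7 : C1 * ((M : ℝ) + 1) ^ 2 ≤ ((2 : ℝ) ^ j) ^ 2 * C1 := by
        have : (M : ℝ) + 1 ≤ (2 : ℝ) ^ j := by linarith
        have h8 : ((M : ℝ) + 1) ^ 2 ≤ ((2 : ℝ) ^ j) ^ 2 := by gcongr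
        calc C1 * ((M : ℝ) + 1) ^ 2 ≤ C1 * ((2 : ℝ) ^ j) ^ 2 := by gcongr
          _ = _ := mul_comm _ _
      have h9 : ((2 : ℝ) ^ j) ^ 2 * (Φ / 2 * (2 : ℝ) ^ j + C1) =
          ((2 : ℝ) ^ j) ^ 2 * (Φ / 2 * (2 : ℝ) ^ j) + ((2 : ℝ) ^ j) ^ 2 * C1 := by ring
      rw [h9]
      linarith
    have h5 : (sm ^ 4)⁻¹ * ∑ n ∈ range (2 * M),
        (∑ v ∈ (range M ×ˢ range M).filter (fun v => v.1 + v.2 = n), w v.1 * w v.2) ^ 2 ≤
        Φ / 2 * (2 : ℝ) ^ j + C1 :=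
      (mul_le_mul_of_nonneg_left h3 (by positivity)).trans h4
    rw [h2]
    have h6 : (∑ a ∈ range M, p a) ^ 2 ≤ (2 : ℝ) ^ j := by
      calc (∑ a ∈ range M, p a) ^ 2 ≤ sm ^ 2 := by gcongr
        _ = (2 : ℝ) ^ j := by rw [sq, hsm2]
    have h7 : C1 ≤ (2 : ℝ) ^ j := by linarith
    have h8 : 0 ≤ Φ / 2 * (2 : ℝ) ^ j := by positivity
    have h9 : (Φ + 9) * (2 : ℝ) ^ j = Φ / 2 * (2 : ℝ) ^ j + Φ / 2 * (2 : ℝ) ^ j +
        9 * (2 : ℝ) ^ j := by ring
    rw [h9]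
    linarith
  -- selection
  set G : Circle × ℕ → ℕ → ℂ := fun i a => if a < i.2 * L then (i.1 : ℂ) ^ (2 ^ j + a) else 0
    with hG
  have hGn : ∀ i a, ‖G i a‖ ≤ 1 := by
    intro i a
    simp only [hG]
    split_ifs
    · rw [norm_pow, Circle.norm_coe, one_pow]
    · rw [norm_zero]; exact zero_le_one
  have hQ0 : 0 < 4 * (Φ + 9) * (2 : ℝ) ^ j := by positivity
  have hδ0 : 0 < sm / (48 * s) := by positivity
  have hlt : (Φ + 9) * (2 : ℝ) ^ j / (4 * (Φ + 9) * (2 : ℝ) ^ j) +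
      (FF.card : ℝ) * sm / (sm / (48 * s)) ^ 2 < 1 := by
    have e1 : (Φ + 9) * (2 : ℝ) ^ j / (4 * (Φ + 9) * (2 : ℝ) ^ j) = 1 / 4 := by
      have : Φ + 9 ≠ 0 := by linarith
      field_simp
    have e2 : (FF.card : ℝ) * sm / (sm / (48 * s)) ^ 2 = (FF.card * (48 * s) ^ 2) / sm := by
      field_simp
    have e3 : ((FF.card : ℝ) * (48 * s) ^ 2) / sm ≤ 1 / 2 := by
      rw [div_le_iff₀ hsm0]
      linarith
    rw [e1, e2]
    linarith
  obtain ⟨B, hBM, hBQ, hBd⟩ := select hp0 hp1 (range M) FF G hGn hE hP hQ0 hδ0 hlt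
  have hBlt : ∀ b ∈ B, 2 * b < 2 ^ j := by
    intro b hb
    have := mem_range.1 (hBM hb)
    omega
  have hsumB : ∀ (ζ : Circle) (k : ℕ), ∑ a ∈ B, G (ζ, k) a =
      ∑ a ∈ B.filter (fun a => a < k * L), (ζ : ℂ) ^ (2 ^ j + a) := by
    intro ζ k
    rw [Finset.sum_filter]
  have hsumR : ∀ (ζ : Circle) (k : ℕ), k ≤ K0 → ∑ a ∈ range M, (p a : ℂ) * G (ζ, k) a =
      ∑ a ∈ range (k * L), (p a : ℂ) * (ζ : ℂ) ^ (2 ^ j + a) := by
    intro ζ k hk
    have hkM : k * L ≤ M := by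
      rw [hMKL]
      exact Nat.mul_le_mul_right _ hk
    have h2 : range (k * L) = (range M).filter (fun a => a < k * L) := by
      ext a
      rw [mem_filter, mem_range, mem_range]
      constructor
      · intro h
        exact ⟨lt_of_lt_of_le h hkM, h⟩
      · intro h
        exact h.2
    rw [h2, Finset.sum_filter]
    refine Finset.sum_congr rfl (fun a _ => ?_)
    simp only [hG]
    split_ifs
    · rfl
    · rw [mul_zero]
  have hd : ∀ ζ ∈ F', ∀ k ≤ K0, ‖∑ a ∈ B.filter (fun a => a < k * L), (ζ : ℂ) ^ (2 ^ j + a) -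
      ∑ a ∈ range (k * L), (p a : ℂ) * (ζ : ℂ) ^ (2 ^ j + a)‖ ≤ sm / (48 * s) := by
    intro ζ hζ k hk
    rw [← hsumB ζ k, ← hsumR ζ k hk]
    exact hBd (ζ, k) (mem_product.2 ⟨hζ, mem_range.2 (by omega)⟩)
  have hd1 : ∀ k ≤ K0, |((B.filter (fun a => a < k * L)).card : ℝ) -
      ∑ a ∈ range (k * L), p a| ≤ sm / (48 * s) := by
    intro k hk
    have h2 := hd 1 (mem_insert_self _ _) k hk
    have h3 : ∑ a ∈ B.filter (fun a => a < k * L), ((1 : Circle) : ℂ) ^ (2 ^ j + a) -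
        ∑ a ∈ range (k * L), (p a : ℂ) * ((1 : Circle) : ℂ) ^ (2 ^ j + a) =
        ((((B.filter (fun a => a < k * L)).card : ℝ) - ∑ a ∈ range (k * L), p a : ℝ) : ℂ) := by
      push_cast
      simp
    rw [h3, Complex.norm_real, Real.norm_eq_abs] at h2
    exact h2
  have hδs : sm / (48 * s) ≤ sm / 48 := by
    refine div_le_div_of_nonneg_left hsm0.le (by norm_num) ?_
    linarith
  refine ⟨B, ?_, hBlt, ?_, ?_, ?_⟩
  · intro b hb
    have := hBlt b hb
    exact mem_range.2 (by omega)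
  · rw [sol_eq_quad hBlt]
    exact hBQ
  · have h2 := (abs_le.1 (hd1 K0 le_rfl)).1
    rw [← hMKL] at h2
    have h3 := (abs_le.1 (hmean1' M)).1
    rw [hMsm] at h3
    have h4 : ((B.filter (fun a => a < M)).card : ℝ) ≤ B.card := by
      exact_mod_cast card_filter_le _ _
    linarith
  · intro ζ hζ y
    have hζ' : ζ ∈ F' := mem_insert_of_mem hζ
    have hmain : ∀ y ≤ M, ‖∑ a ∈ B.filter (fun a => a < y), (ζ : ℂ) ^ (2 ^ j + a) -
        φ ζ * (B.filter (fun a => a < y)).card‖ ≤ sm / s := by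
      intro y hy
      have hcut := cuts_le hL0 hMKL B p (fun a => (ζ : ℂ) ^ (2 ^ j + a))
        (fun a => by rw [norm_pow, Circle.norm_coe, one_pow]) (hφ1 ζ (hF ζ hζ)) hsm0 hC0
        (ε := 1 / (2 * (s : ℝ))) (by positivity) (hd ζ hζ') hd1 (fun y _ => hmean1 ζ hζ' y)
        (fun y _ => hmean1' y) (gam_close hSne (hφ1 ζ (hF ζ hζ)) (hfol ζ hζ)) y hy
      refine hcut.trans ?_
      have t1 : 2 * (L : ℝ) / sm ≤ sm / s / 8 := by
        have hL1 : 8 * (s : ℝ) * L ≤ M := by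
          rw [hMKLR]
          gcongr
        rw [div_div, div_le_div_iff₀ hsm0 (by positivity), hsm2]
        nlinarith
      have t2 : 6 * C / sm ≤ sm / s / 2 := by
        rw [div_div, div_le_div_iff₀ hsm0 (by positivity), hsm2]
        have : 12 * C * s ≤ sm := by linarith
        nlinarith
      have t3 : 6 * (sm / (48 * s)) = sm / s / 8 := by field_simp; norm_num
      have t4 : 1 / (2 * (s : ℝ)) * M / sm = sm / s / 4 := by
        rw [mul_div_assoc, hMsm]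
        field_simp
        norm_num
      rw [t3, t4]
      linarith
    rcases Nat.le_total y M with hy | hy
    · exact hmain y hy
    · have h2 : B.filter (fun a => a < y) = B.filter (fun a => a < M) := by
        refine filter_congr (fun a ha => ?_)
        have := mem_range.1 (hBM ha)
        constructor
        · intro _
          exact this
        · intro _
          omega
      rw [h2]
      exact hmain M le_rfl

end Pool.Agent.Helper38.SP
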