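import Pool.Agent.Helper80.SP.Nec
import Pool.Agent.Helper80.SP.Compact

/-!
Bounded representation functions: two sided bounds for the squares of the limits.
-/

set_option autoImplicit false

open Finset Filter

namespace Pool.Agent.Helper38.SP

open Pool.Agent.Helper25.RC (below rep repF)
open Pool.Agent.Helper80.SP (cs geom_le mean mean_sq)

/-- the quadratic form in the squares -/
noncomputable def qf (S : Finset Circle) (c : Circle → ℂ) (ψ : Circle → ℂ) : ℂ :=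
  ∑ s ∈ S, ∑ t ∈ S, c s * (starRingEnd ℂ) (c t) * ψ (s / t) ^ 2

theorem norm_sq_expand (S : Finset Circle) (c : Circle → ℂ) (n : ℕ) :
    ((‖∑ s ∈ S, c s * (s : ℂ) ^ n‖ ^ 2 : ℝ) : ℂ) =
      ∑ s ∈ S, ∑ t ∈ S, c s * (starRingEnd ℂ) (c t) * ((s / t : Circle) : ℂ) ^ n := by
  have h2 : ((‖∑ s ∈ S, c s * (s : ℂ) ^ n‖ ^ 2 : ℝ) : ℂ) =
      (∑ s ∈ S, c s * (s : ℂ) ^ n) * (starRingEnd ℂ) (∑ s ∈ S, c s * (s : ℂ) ^ n) := by
    rw [Complex.mul_conj, Complex.normSq_eq_norm_sq]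
  rw [h2, map_sum, Finset.sum_mul_sum]
  refine Finset.sum_congr rfl (fun s _ => Finset.sum_congr rfl (fun t _ => ?_))
  rw [map_mul, map_pow, ← Circle.coe_inv_eq_conj, div_eq_mul_inv, Circle.coe_mul, mul_pow]
  ring

theorem gram2 (S : Finset Circle) (c : Circle → ℂ) : ∃ C : ℝ, 0 ≤ C ∧ ∀ Y : ℕ,
    |∑ n ∈ range Y, ‖∑ s ∈ S, c s * (s : ℂ) ^ n‖ ^ 2 - Y * ∑ s ∈ S, ‖c s‖ ^ 2| ≤ C := by
  classical
  refine ⟨∑ s ∈ S, ∑ t ∈ S, ‖c s‖ * ‖c t‖ * cs (s / t), Finset.sum_nonneg (fun s _ =>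
    Finset.sum_nonneg (fun t _ => mul_nonneg (by positivity) (Pool.Agent.Helper80.SP.cs_nonneg _))),
    fun Y => ?_⟩
  have h1 : ((∑ n ∈ range Y, ‖∑ s ∈ S, c s * (s : ℂ) ^ n‖ ^ 2 - Y * ∑ s ∈ S, ‖c s‖ ^ 2 : ℝ) : ℂ) =
      ∑ s ∈ S, ∑ t ∈ S, c s * (starRingEnd ℂ) (c t) *
        (∑ n ∈ range Y, ((s / t : Circle) : ℂ) ^ n - if s = t then (Y : ℂ) else 0) := by
    rw [Complex.ofReal_sub, Complex.ofReal_sum]
    simp_rw [norm_sq_expand]
    rw [Finset.sum_comm]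
    simp_rw [mul_sub, Finset.sum_sub_distrib]
    congr 1
    · refine Finset.sum_congr rfl (fun s _ => ?_)
      rw [Finset.sum_comm]
      refine Finset.sum_congr rfl (fun t _ => ?_)
      rw [Finset.mul_sum]
    · push_cast
      rw [Finset.mul_sum]
      refine Finset.sum_congr rfl (fun s hs => ?_)
      simp only [mul_ite, mul_zero]
      rw [Finset.sum_ite_eq, if_pos hs, Complex.mul_conj, Complex.normSq_eq_norm_sq]
      push_cast
      ring
  rw [← Real.norm_eq_abs, ← Complex.norm_real, h1]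
  refine (norm_sum_le _ _).trans (Finset.sum_le_sum (fun s _ => ?_))
  refine (norm_sum_le _ _).trans (Finset.sum_le_sum (fun t _ => ?_))
  rw [norm_mul, norm_mul, RCLike.norm_conj]
  refine mul_le_mul_of_nonneg_left ?_ (by positivity)
  by_cases h : s = t
  · subst h
    rw [if_pos rfl, div_self']
    simp only [Circle.coe_one, one_pow, Finset.sum_const, card_range, nsmul_eq_mul, mul_one,
      sub_self, norm_zero]
    exact Pool.Agent.Helper80.SP.cs_nonneg _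
  · rw [if_neg h, sub_zero]
    exact geom_le _ (fun h' => h (div_eq_one.1 h')) Y

theorem qf_mean (A : Set ℕ) (x : ℕ) (S : Finset Circle) (c : Circle → ℂ) :
    qf S c (mean A x) = (((∑ n ∈ range (2 * x), (repF (below A x) n : ℝ) *
      ‖∑ s ∈ S, c s * (s : ℂ) ^ n‖ ^ 2) / (#(below A x) : ℝ) ^ 2 : ℝ) : ℂ) := by
  have e1 : ∀ s ∈ S, ∀ t ∈ S, c s * (starRingEnd ℂ) (c t) * mean A x (s / t) ^ 2 =
      (∑ n ∈ range (2 * x), (repF (below A x) n : ℂ) *
        (c s * (starRingEnd ℂ) (c t) * ((s / t : Circle) : ℂ) ^ n)) / (#(below A x) : ℂ) ^ 2 := by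
    intro s _ t _
    rw [mean_sq, mul_div_assoc', Finset.mul_sum]
    congr 1
    exact Finset.sum_congr rfl (fun n _ => by ring)
  have e2 : qf S c (mean A x) = (∑ s ∈ S, ∑ t ∈ S, ∑ n ∈ range (2 * x), (repF (below A x) n : ℂ) *
        (c s * (starRingEnd ℂ) (c t) * ((s / t : Circle) : ℂ) ^ n)) / (#(below A x) : ℂ) ^ 2 := by
    unfold qf
    rw [Finset.sum_div]
    refine Finset.sum_congr rfl (fun s hs => ?_)
    rw [Finset.sum_div]
    exact Finset.sum_congr rfl (fun t ht => e1 s hs t ht)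
  have e3 : ∑ s ∈ S, ∑ t ∈ S, ∑ n ∈ range (2 * x), (repF (below A x) n : ℂ) *
        (c s * (starRingEnd ℂ) (c t) * ((s / t : Circle) : ℂ) ^ n) =
      ∑ n ∈ range (2 * x), (repF (below A x) n : ℂ) *
        ((‖∑ s ∈ S, c s * (s : ℂ) ^ n‖ ^ 2 : ℝ) : ℂ) := by
    have e4 : ∀ s ∈ S, ∑ t ∈ S, ∑ n ∈ range (2 * x), (repF (below A x) n : ℂ) *
        (c s * (starRingEnd ℂ) (c t) * ((s / t : Circle) : ℂ) ^ n) =
        ∑ n ∈ range (2 * x), ∑ t ∈ S, (repF (below A x) n : ℂ) *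
        (c s * (starRingEnd ℂ) (c t) * ((s / t : Circle) : ℂ) ^ n) := fun s _ => Finset.sum_comm
    rw [Finset.sum_congr rfl e4, Finset.sum_comm]
    refine Finset.sum_congr rfl (fun n _ => ?_)
    rw [norm_sq_expand, Finset.mul_sum]
    refine Finset.sum_congr rfl (fun s _ => ?_)
    rw [Finset.mul_sum]
  rw [e2, e3]
  push_cast
  rfl

theorem card_sq_eq (A : Set ℕ) (x : ℕ) :
    (#(below A x) : ℝ) ^ 2 = ∑ n ∈ range (2 * x), (repF (below A x) n : ℝ) := by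
  have h := Helper25.RC.sum_add (below A x) (Helper25.RC.below_subset_range A x) (fun _ => 1)
  simp only [mul_one, Finset.sum_const, nsmul_eq_mul, card_product] at h
  rw [← h]
  push_cast
  ring

theorem rep_le_repF (A : Set ℕ) {x n : ℕ} (hn : n < x) : rep A n ≤ repF (below A x) n := by
  classical
  unfold Helper25.RC.rep Helper25.RC.repF
  refine card_le_card (fun p hp => ?_)
  rw [mem_filter, HasAntidiagonal.mem_antidiagonal] at hp
  rw [mem_filter, mem_product, Helper25.RC.mem_below, Helper25.RC.mem_below]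
  exact ⟨⟨⟨by omega, hp.2.1⟩, by omega, hp.2.2⟩, hp.1⟩

theorem tendsto_qf {F : Filter ℕ} {A : Set ℕ} {φ : Circle → ℂ} (S : Finset Circle) (c : Circle → ℂ)
    (hlim : ∀ s ∈ S, ∀ t ∈ S, Tendsto (fun x => mean A x (s / t)) F (nhds (φ (s / t)))) :
    Tendsto (fun x => qf S c (mean A x)) F (nhds (qf S c φ)) := by
  unfold qf
  exact tendsto_finsetSum _ (fun s hs => tendsto_finsetSum _ (fun t ht =>
    ((hlim s hs t ht).pow 2).const_mul _))

/-- the squares of the limits form a bounded quadratic form if `r` is bounded -/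
theorem qf_upper {F : Filter ℕ} [F.NeBot] (hF : F ≤ atTop) {A : Set ℕ} {g d : ℝ} (hd : 0 < d)
    (hT : ∀ᶠ x : ℕ in F, d * √x ≤ #(below A x)) (hg : ∀ n, (rep A n : ℝ) ≤ g)
    {φ : Circle → ℂ} (S : Finset Circle) (c : Circle → ℂ)
    (hlim : ∀ s ∈ S, ∀ t ∈ S, Tendsto (fun x => mean A x (s / t)) F (nhds (φ (s / t)))) :
    (qf S c φ).re ≤ 2 * g / d ^ 2 * ∑ s ∈ S, ‖c s‖ ^ 2 ∧ (qf S c φ).im = 0 := by
  classical
  obtain ⟨C, hC0, hC⟩ := gram2 S c
  have hg0 : 0 ≤ g := le_trans (Nat.cast_nonneg _) (hg 0)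
  have ht := tendsto_qf S c hlim
  have htre := (Complex.continuous_re.tendsto _).comp ht
  have htim := (Complex.continuous_im.tendsto _).comp ht
  constructor
  · have hlimit : Tendsto (fun x : ℕ => 2 * g / d ^ 2 * ∑ s ∈ S, ‖c s‖ ^ 2 + g * C / (d ^ 2) / x) F
        (nhds (2 * g / d ^ 2 * ∑ s ∈ S, ‖c s‖ ^ 2 + 0)) := by
      refine tendsto_const_nhds.add ?_
      exact (tendsto_const_div_atTop_nhds_zero_nat _).mono_left hF
    rw [add_zero] at hlimit
    refine le_of_tendsto_of_tendsto htre hlimit ?_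
    filter_upwards [hT, hF (eventually_ge_atTop 1)] with x h1 h2
    have hx : (1 : ℝ) ≤ x := by exact_mod_cast h2
    have hx0 : (0 : ℝ) < x := by linarith
    simp only [Function.comp]
    rw [qf_mean, Complex.ofReal_re]
    have hT2 : d ^ 2 * x ≤ (#(below A x) : ℝ) ^ 2 := by
      calc d ^ 2 * x = (d * √x) ^ 2 := by rw [mul_pow, Real.sq_sqrt hx0.le]
        _ ≤ _ := by gcongr
    have hTpos : (0 : ℝ) < (#(below A x) : ℝ) ^ 2 := lt_of_lt_of_le (by positivity) hT2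
    have h3 : ∑ n ∈ range (2 * x), (repF (below A x) n : ℝ) * ‖∑ s ∈ S, c s * (s : ℂ) ^ n‖ ^ 2 ≤
        g * (2 * x * ∑ s ∈ S, ‖c s‖ ^ 2 + C) := by
      have h4 : ∑ n ∈ range (2 * x), (repF (below A x) n : ℝ) * ‖∑ s ∈ S, c s * (s : ℂ) ^ n‖ ^ 2 ≤
          ∑ n ∈ range (2 * x), g * ‖∑ s ∈ S, c s * (s : ℂ) ^ n‖ ^ 2 := by
        refine Finset.sum_le_sum (fun n _ => mul_le_mul_of_nonneg_right ?_ (by positivity))
        refine le_trans ?_ (hg n)
        exact_mod_cast Helper25.RC.repF_below_le A x n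
      rw [← Finset.mul_sum] at h4
      have h5 := (abs_le.1 (hC (2 * x))).2
      push_cast at h5
      refine h4.trans (mul_le_mul_of_nonneg_left ?_ hg0)
      linarith
    have hS0 : 0 ≤ ∑ s ∈ S, ‖c s‖ ^ 2 := Finset.sum_nonneg (fun s _ => by positivity)
    calc (∑ n ∈ range (2 * x), (repF (below A x) n : ℝ) * ‖∑ s ∈ S, c s * (s : ℂ) ^ n‖ ^ 2) /
        (#(below A x) : ℝ) ^ 2 ≤ (g * (2 * x * ∑ s ∈ S, ‖c s‖ ^ 2 + C)) / (d ^ 2 * x) := by
          refine div_le_div₀ (by positivity) h3 (by positivity) hT2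
      _ = _ := by
          field_simp
  · have hz : ∀ x, ((Complex.im) ∘ fun x => qf S c (mean A x)) x = 0 := by
      intro x
      simp only [Function.comp]
      rw [qf_mean, Complex.ofReal_im]
    have h6 : Tendsto (Complex.im ∘ fun x => qf S c (mean A x)) F (nhds 0) := by
      have : (Complex.im ∘ fun x => qf S c (mean A x)) = fun _ => 0 := funext hz
      rw [this]
      exact tendsto_const_nhds
    exact tendsto_nhds_unique htim h6

/-- the squares of the limits form a quadratic form bounded below if `A` is a basis -/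
theorem qf_lower {F : Filter ℕ} [F.NeBot] (hF : F ≤ atTop) {A : Set ℕ} {g : ℝ}
    (hg : ∀ n, (rep A n : ℝ) ≤ g) {n0 : ℕ} (hb : ∀ n, n0 ≤ n → 1 ≤ rep A n)
    {φ : Circle → ℂ} (S : Finset Circle) (c : Circle → ℂ)
    (hlim : ∀ s ∈ S, ∀ t ∈ S, Tendsto (fun x => mean A x (s / t)) F (nhds (φ (s / t)))) :
    1 / (2 * g) * ∑ s ∈ S, ‖c s‖ ^ 2 ≤ (qf S c φ).re := by
  classical
  obtain ⟨C, hC0, hC⟩ := gram2 S c
  have hg1 : 1 ≤ g := by
    refine le_trans ?_ (hg n0)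
    exact_mod_cast hb n0 le_rfl
  have ht := tendsto_qf S c hlim
  have htre := (Complex.continuous_re.tendsto _).comp ht
  set E : ℝ := ∑ n ∈ range n0, ‖∑ s ∈ S, c s * (s : ℂ) ^ n‖ ^ 2 with hE
  have hE0 : 0 ≤ E := Finset.sum_nonneg (fun n _ => by positivity)
  have hlimit : Tendsto (fun x : ℕ => 1 / (2 * g) * ∑ s ∈ S, ‖c s‖ ^ 2 - (C + E) / (2 * g) / x) F
      (nhds (1 / (2 * g) * ∑ s ∈ S, ‖c s‖ ^ 2 - 0)) := by
    refine tendsto_const_nhds.sub ?_
    exact (tendsto_const_div_atTop_nhds_zero_nat _).mono_left hF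
  rw [sub_zero] at hlimit
  refine le_of_tendsto_of_tendsto hlimit htre ?_
  filter_upwards [hF (eventually_ge_atTop (n0 + 1))] with x h2
  have hx : (1 : ℝ) ≤ x := by
    have : 1 ≤ x := by omega
    exact_mod_cast this
  have hx0 : (0 : ℝ) < x := by linarith
  simp only [Function.comp]
  rw [qf_mean, Complex.ofReal_re]
  have hS0 : 0 ≤ ∑ s ∈ S, ‖c s‖ ^ 2 := Finset.sum_nonneg (fun s _ => by positivity)
  have h3 : (x : ℝ) * ∑ s ∈ S, ‖c s‖ ^ 2 - C - E ≤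
      ∑ n ∈ range (2 * x), (repF (below A x) n : ℝ) * ‖∑ s ∈ S, c s * (s : ℂ) ^ n‖ ^ 2 := by
    have h4 : ∑ n ∈ range x, ‖∑ s ∈ S, c s * (s : ℂ) ^ n‖ ^ 2 - E ≤
        ∑ n ∈ range x, (repF (below A x) n : ℝ) * ‖∑ s ∈ S, c s * (s : ℂ) ^ n‖ ^ 2 := by
      have h5 : ∑ n ∈ range x, ‖∑ s ∈ S, c s * (s : ℂ) ^ n‖ ^ 2 =
          E + ∑ n ∈ Ico n0 x, ‖∑ s ∈ S, c s * (s : ℂ) ^ n‖ ^ 2 := by
        rw [hE, range_eq_Ico, range_eq_Ico]
        exact (Finset.sum_Ico_consecutive _ (Nat.zero_le _) (by omega)).symm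
      have h6 : ∑ n ∈ Ico n0 x, ‖∑ s ∈ S, c s * (s : ℂ) ^ n‖ ^ 2 ≤
          ∑ n ∈ Ico n0 x, (repF (below A x) n : ℝ) * ‖∑ s ∈ S, c s * (s : ℂ) ^ n‖ ^ 2 := by
        refine Finset.sum_le_sum (fun n hn => ?_)
        rw [mem_Ico] at hn
        have h7 : (1 : ℝ) ≤ repF (below A x) n := by
          exact_mod_cast (hb n hn.1).trans (rep_le_repF A hn.2)
        have h8 : 0 ≤ ‖∑ s ∈ S, c s * (s : ℂ) ^ n‖ ^ 2 := by positivity
        nlinarith
      have h7 : ∑ n ∈ Ico n0 x, (repF (below A x) n : ℝ) * ‖∑ s ∈ S, c s * (s : ℂ) ^ n‖ ^ 2 ≤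
          ∑ n ∈ range x, (repF (below A x) n : ℝ) * ‖∑ s ∈ S, c s * (s : ℂ) ^ n‖ ^ 2 := by
        refine Finset.sum_le_sum_of_subset_of_nonneg ?_ (fun n _ _ => by positivity)
        intro n hn
        rw [mem_Ico] at hn
        exact mem_range.2 hn.2
      linarith
    have h5 : ∑ n ∈ range x, (repF (below A x) n : ℝ) * ‖∑ s ∈ S, c s * (s : ℂ) ^ n‖ ^ 2 ≤
        ∑ n ∈ range (2 * x), (repF (below A x) n : ℝ) * ‖∑ s ∈ S, c s * (s : ℂ) ^ n‖ ^ 2 := by
      refine Finset.sum_le_sum_of_subset_of_nonneg ?_ (fun n _ _ => by positivity)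
      intro n hn
      rw [mem_range] at hn ⊢
      omega
    have h6 := (abs_le.1 (hC x)).1
    linarith
  have hTle : (#(below A x) : ℝ) ^ 2 ≤ 2 * g * x := by
    rw [card_sq_eq]
    calc ∑ n ∈ range (2 * x), (repF (below A x) n : ℝ) ≤ ∑ _n ∈ range (2 * x), g := by
          refine Finset.sum_le_sum (fun n _ => le_trans ?_ (hg n))
          exact_mod_cast Helper25.RC.repF_below_le A x n
      _ = 2 * g * x := by
          rw [Finset.sum_const, card_range, nsmul_eq_mul]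
          push_cast
          ring
  have hTpos : (0 : ℝ) < (#(below A x) : ℝ) ^ 2 := by
    rw [card_sq_eq]
    have h7 : (1 : ℝ) ≤ (repF (below A x) n0 : ℝ) := by
      exact_mod_cast (hb n0 le_rfl).trans (rep_le_repF A (by omega : n0 < x))
    have h8 : (repF (below A x) n0 : ℝ) ≤ ∑ n ∈ range (2 * x), (repF (below A x) n : ℝ) :=
      Finset.single_le_sum (f := fun n => (repF (below A x) n : ℝ)) (fun n _ => Nat.cast_nonneg _)
        (mem_range.2 (by omega))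
    linarith
  have hq0 : 0 ≤ ∑ n ∈ range (2 * x), (repF (below A x) n : ℝ) *
      ‖∑ s ∈ S, c s * (s : ℂ) ^ n‖ ^ 2 := Finset.sum_nonneg (fun n _ => by positivity)
  have h9 : 1 / (2 * g) * ∑ s ∈ S, ‖c s‖ ^ 2 - (C + E) / (2 * g) / x =
      ((x : ℝ) * ∑ s ∈ S, ‖c s‖ ^ 2 - C - E) / (2 * g * x) := by
    field_simp
    ring
  rw [h9]
  calc ((x : ℝ) * ∑ s ∈ S, ‖c s‖ ^ 2 - C - E) / (2 * g * x) ≤
      (∑ n ∈ range (2 * x), (repF (below A x) n : ℝ) * ‖∑ s ∈ S, c s * (s : ℂ) ^ n‖ ^ 2) /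
        (2 * g * x) := div_le_div_of_nonneg_right h3 (by positivity)
    _ ≤ _ := div_le_div_of_nonneg_left hq0 hTpos hTle

end Pool.Agent.Helper38.SP
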