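import Pool.Agent.Helper38.SP.Bdd

/-!
The two sided bounds as positive definiteness.
-/

set_option autoImplicit false

open Finset Filter
open scoped ComplexConjugate ComplexOrder

namespace Pool.Agent.Helper38.SP

open Pool.Agent.Helper25.RC (below rep repF)
open Pool.Agent.Helper80.SP (mean)

open Classical in
theorem diag_form (S : Finset Circle) (c : Circle → ℂ) (K : ℝ) :
    ∑ s ∈ S, ∑ t ∈ S, c s * conj (c t) * (if s / t = 1 then (K : ℂ) else 0) =
      ((K * ∑ s ∈ S, ‖c s‖ ^ 2 : ℝ) : ℂ) := by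
  push_cast
  rw [Finset.mul_sum]
  refine sum_congr rfl fun s hs => ?_
  rw [Finset.sum_eq_single s]
  · rw [div_self', if_pos rfl, Complex.mul_conj, Complex.normSq_eq_norm_sq]
    push_cast
    ring
  · intro t _ hts
    rw [if_neg, mul_zero]
    intro h
    exact hts (div_eq_one.1 h).symm
  · intro h
    exact absurd hs h

open Classical in
theorem third_upper {F : Filter ℕ} [F.NeBot] (hF : F ≤ atTop) {A : Set ℕ} {g d : ℝ} (hd : 0 < d)
    (hT : ∀ᶠ x : ℕ in F, d * √x ≤ #(below A x)) (hg : ∀ n, (rep A n : ℝ) ≤ g)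
    {φ : Circle → ℂ} (S : Finset Circle) (c : Circle → ℂ)
    (hlim : ∀ s ∈ S, ∀ t ∈ S, Tendsto (fun x => mean A x (s / t)) F (nhds (φ (s / t)))) :
    0 ≤ ∑ s ∈ S, ∑ t ∈ S, c s * conj (c t) *
      ((if s / t = 1 then ((2 * g / d ^ 2 : ℝ) : ℂ) else 0) - φ (s / t) ^ 2) := by
  obtain ⟨h1, h2⟩ := qf_upper hF hd hT hg S c hlim
  have h : ∑ s ∈ S, ∑ t ∈ S, c s * conj (c t) *
      ((if s / t = 1 then ((2 * g / d ^ 2 : ℝ) : ℂ) else 0) - φ (s / t) ^ 2) =
      ((2 * g / d ^ 2 * ∑ s ∈ S, ‖c s‖ ^ 2 : ℝ) : ℂ) - qf S c φ := by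
    rw [← diag_form S c]
    unfold qf
    rw [← sum_sub_distrib]
    refine sum_congr rfl fun s _ => ?_
    rw [← sum_sub_distrib]
    refine sum_congr rfl fun t _ => ?_
    ring
  rw [h, Complex.le_def]
  constructor
  · rw [Complex.sub_re, Complex.ofReal_re, Complex.zero_re]
    linarith
  · rw [Complex.sub_im, Complex.ofReal_im, Complex.zero_im, h2, sub_zero]

open Classical in
theorem third_lower {F : Filter ℕ} [F.NeBot] (hF : F ≤ atTop) {A : Set ℕ} {g d : ℝ} (hd : 0 < d)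
    (hT : ∀ᶠ x : ℕ in F, d * √x ≤ #(below A x)) (hg : ∀ n, (rep A n : ℝ) ≤ g) {n0 : ℕ}
    (hb : ∀ n, n0 ≤ n → 1 ≤ rep A n)
    {φ : Circle → ℂ} (S : Finset Circle) (c : Circle → ℂ)
    (hlim : ∀ s ∈ S, ∀ t ∈ S, Tendsto (fun x => mean A x (s / t)) F (nhds (φ (s / t)))) :
    0 ≤ ∑ s ∈ S, ∑ t ∈ S, c s * conj (c t) *
      (φ (s / t) ^ 2 - (if s / t = 1 then ((1 / (2 * g) : ℝ) : ℂ) else 0)) := by
  obtain ⟨_, h2⟩ := qf_upper hF hd hT hg S c hlim
  have h1 := qf_lower hF hg hb S c hlim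
  have h : ∑ s ∈ S, ∑ t ∈ S, c s * conj (c t) *
      (φ (s / t) ^ 2 - (if s / t = 1 then ((1 / (2 * g) : ℝ) : ℂ) else 0)) =
      qf S c φ - ((1 / (2 * g) * ∑ s ∈ S, ‖c s‖ ^ 2 : ℝ) : ℂ) := by
    rw [← diag_form S c]
    unfold qf
    rw [← sum_sub_distrib]
    refine sum_congr rfl fun s _ => ?_
    rw [← sum_sub_distrib]
    refine sum_congr rfl fun t _ => ?_
    ring
  rw [h, Complex.le_def]
  constructor
  · rw [Complex.sub_re, Complex.ofReal_re, Complex.zero_re]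
    linarith
  · rw [Complex.sub_im, Complex.ofReal_im, Complex.zero_im, h2, sub_zero]

end Pool.Agent.Helper38.SP
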