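import Mathlib

/-!
Random subsets with independent choices.
-/

set_option autoImplicit false

open Finset

namespace Pool.Agent.Helper38.SP

/-- probability of the subset `S` of `R` -/
def pw (p : ℕ → ℝ) (R S : Finset ℕ) : ℝ := (∏ a ∈ S, p a) * ∏ a ∈ R \ S, (1 - p a)

/-- expectation -/
def EX (p : ℕ → ℝ) (R : Finset ℕ) (f : Finset ℕ → ℝ) : ℝ := ∑ S ∈ R.powerset, pw p R S * f S

theorem pw_nonneg {p : ℕ → ℝ} (h0 : ∀ a, 0 ≤ p a) (h1 : ∀ a, p a ≤ 1) (R S : Finset ℕ) :
    0 ≤ pw p R S :=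
  mul_nonneg (Finset.prod_nonneg (fun a _ => h0 a))
    (Finset.prod_nonneg (fun a _ => by linarith [h1 a]))

theorem sum_pw (p : ℕ → ℝ) (R : Finset ℕ) : ∑ S ∈ R.powerset, pw p R S = 1 := by
  have h := Finset.prod_add (fun a => p a) (fun a => 1 - p a) R
  simp only [add_sub_cancel, Finset.prod_const_one] at h
  rw [h]
  rfl

theorem pw_union (p : ℕ → ℝ) {R F S : Finset ℕ} (hS : S ⊆ R \ F) :
    pw p R (F ∪ S) = (∏ a ∈ F, p a) * pw p (R \ F) S := by
  unfold pw
  have hd : Disjoint F S := by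
    rw [Finset.disjoint_left]
    intro a ha ha'
    exact (mem_sdiff.1 (hS ha')).2 ha
  rw [Finset.prod_union hd]
  have h : R \ (F ∪ S) = (R \ F) \ S := by
    ext a
    simp only [mem_sdiff, mem_union]
    tauto
  rw [h]
  ring

theorem sum_super (p : ℕ → ℝ) {R F : Finset ℕ} (hF : F ⊆ R) :
    ∑ S ∈ R.powerset with F ⊆ S, pw p R S = ∏ a ∈ F, p a := by
  have h : ∑ S ∈ R.powerset with F ⊆ S, pw p R S =
      ∑ S ∈ (R \ F).powerset, (∏ a ∈ F, p a) * pw p (R \ F) S := by
    symm
    refine Finset.sum_bij (fun S _ => F ∪ S) ?_ ?_ ?_ ?_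
    · intro S hS
      rw [mem_powerset] at hS
      refine mem_filter.2 ⟨mem_powerset.2 (union_subset hF (hS.trans sdiff_subset)),
        subset_union_left⟩
    · intro S hS T hT h
      rw [mem_powerset] at hS hT
      ext a
      constructor
      · intro ha
        have h1 : a ∈ F ∪ T := by rw [← h]; exact mem_union_right _ ha
        rcases mem_union.1 h1 with h2 | h2
        · exact absurd h2 (mem_sdiff.1 (hS ha)).2
        · exact h2
      · intro ha
        have h1 : a ∈ F ∪ S := by rw [h]; exact mem_union_right _ ha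
        rcases mem_union.1 h1 with h2 | h2
        · exact absurd h2 (mem_sdiff.1 (hT ha)).2
        · exact h2
    · intro T hT
      obtain ⟨h1, h2⟩ := mem_filter.1 hT
      rw [mem_powerset] at h1
      refine ⟨T \ F, mem_powerset.2 (sdiff_subset_sdiff h1 le_rfl), ?_⟩
      exact union_sdiff_of_subset h2
    · intro S hS
      exact (pw_union p (mem_powerset.1 hS)).symm
  rw [h, ← Finset.mul_sum, sum_pw, mul_one]

theorem EX_count {β : Type} (p : ℕ → ℝ) (R : Finset ℕ) (Q : Finset β) (F : β → Finset ℕ)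
    (hF : ∀ q ∈ Q, F q ⊆ R) :
    EX p R (fun S => ∑ q ∈ Q, if F q ⊆ S then (1 : ℝ) else 0) = ∑ q ∈ Q, ∏ a ∈ F q, p a := by
  unfold EX
  have h1 : ∀ S ∈ R.powerset, pw p R S * (∑ q ∈ Q, if F q ⊆ S then (1 : ℝ) else 0) =
      ∑ q ∈ Q, if F q ⊆ S then pw p R S else 0 := by
    intro S _
    rw [Finset.mul_sum]
    refine Finset.sum_congr rfl (fun q _ => ?_)
    split_ifs <;> ring
  rw [Finset.sum_congr rfl h1, Finset.sum_comm]
  refine Finset.sum_congr rfl (fun q hq => ?_)
  rw [← Finset.sum_filter]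
  exact sum_super p (hF q hq)

theorem EX_add (p : ℕ → ℝ) (R : Finset ℕ) (f g : Finset ℕ → ℝ) :
    EX p R (fun S => f S + g S) = EX p R f + EX p R g := by
  unfold EX
  rw [← Finset.sum_add_distrib]
  exact Finset.sum_congr rfl (fun S _ => by ring)

theorem EX_sum {β : Type} (p : ℕ → ℝ) (R : Finset ℕ) (Q : Finset β) (f : β → Finset ℕ → ℝ) :
    EX p R (fun S => ∑ q ∈ Q, f q S) = ∑ q ∈ Q, EX p R (f q) := by
  unfold EX
  rw [Finset.sum_comm]
  exact Finset.sum_congr rfl (fun S _ => Finset.mul_sum _ _ _)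

theorem EX_const_mul (p : ℕ → ℝ) (R : Finset ℕ) (c : ℝ) (f : Finset ℕ → ℝ) :
    EX p R (fun S => c * f S) = c * EX p R f := by
  unfold EX
  rw [Finset.mul_sum]
  exact Finset.sum_congr rfl (fun S _ => by ring)

theorem EX_mono {p : ℕ → ℝ} (h0 : ∀ a, 0 ≤ p a) (h1 : ∀ a, p a ≤ 1) (R : Finset ℕ)
    {f g : Finset ℕ → ℝ} (h : ∀ S ⊆ R, f S ≤ g S) : EX p R f ≤ EX p R g := by
  unfold EX
  exact Finset.sum_le_sum (fun S hS => mul_le_mul_of_nonneg_left (h S (mem_powerset.1 hS))
    (pw_nonneg h0 h1 R S))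

/-- a value below one is attained somewhere if the expectation is below one -/
theorem exists_lt {p : ℕ → ℝ} (h0 : ∀ a, 0 ≤ p a) (h1 : ∀ a, p a ≤ 1) (R : Finset ℕ)
    {f : Finset ℕ → ℝ} (h : EX p R f < 1) : ∃ S ⊆ R, f S < 1 := by
  by_contra hcon
  push Not at hcon
  have h2 : EX p R (fun _ => 1) ≤ EX p R f := EX_mono h0 h1 R hcon
  have h3 : EX p R (fun _ => 1) = 1 := by
    unfold EX
    simp only [mul_one]
    exact sum_pw p R
  linarith

/-- the second moment of a real linear statistic -/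
theorem EX_var (p : ℕ → ℝ) (R : Finset ℕ) (g : ℕ → ℝ) :
    EX p R (fun S => (∑ a ∈ S, g a - ∑ a ∈ R, p a * g a) ^ 2) =
      ∑ a ∈ R, p a * (1 - p a) * g a ^ 2 := by
  classical
  set μ : ℝ := ∑ a ∈ R, p a * g a with hμ
  have hlin : ∀ S ∈ R.powerset, ∑ a ∈ S, g a = ∑ a ∈ R, (if a ∈ S then 1 else 0) * g a := by
    intro S hS
    rw [mem_powerset] at hS
    simp only [ite_mul, one_mul, zero_mul]
    rw [← Finset.sum_filter]
    congr 1
    ext a
    rw [mem_filter]
    exact ⟨fun h => ⟨hS h, h⟩, fun h => h.2⟩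
  have e1 : ∀ a ∈ R, ∑ S ∈ R.powerset, pw p R S * (if a ∈ S then 1 else 0) = p a := by
    intro a ha
    have h := sum_super p (R := R) (F := {a}) (singleton_subset_iff.2 ha)
    rw [prod_singleton] at h
    rw [← h, Finset.sum_filter]
    refine Finset.sum_congr rfl (fun S _ => ?_)
    simp only [singleton_subset_iff]
    split_ifs <;> ring
  have e2 : ∀ a ∈ R, ∀ b ∈ R, ∑ S ∈ R.powerset,
      pw p R S * ((if a ∈ S then 1 else 0) * (if b ∈ S then 1 else 0)) =
        p a * p b + (if a = b then p a * (1 - p a) else 0) := by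
    intro a ha b hb
    by_cases hab : a = b
    · subst hab
      rw [if_pos rfl]
      have h2 : ∀ S ∈ R.powerset, pw p R S * ((if a ∈ S then 1 else 0) * (if a ∈ S then 1 else 0)) =
          pw p R S * (if a ∈ S then 1 else 0) := by
        intro S _
        split_ifs <;> ring
      rw [Finset.sum_congr rfl h2, e1 a ha]
      ring
    · rw [if_neg hab, add_zero]
      have h := sum_super p (R := R) (F := {a, b})
        (insert_subset_iff.2 ⟨ha, singleton_subset_iff.2 hb⟩)
      rw [prod_pair hab] at h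
      rw [← h, Finset.sum_filter]
      refine Finset.sum_congr rfl (fun S _ => ?_)
      by_cases h1 : a ∈ S <;> by_cases h2 : b ∈ S <;>
        simp [h1, h2, insert_subset_iff, singleton_subset_iff]
  have m1 : EX p R (fun S => ∑ a ∈ S, g a) = μ := by
    unfold EX
    have h1 : ∀ S ∈ R.powerset, pw p R S * (∑ a ∈ S, g a) =
        ∑ a ∈ R, (pw p R S * (if a ∈ S then 1 else 0)) * g a := by
      intro S hS
      rw [hlin S hS, Finset.mul_sum]
      exact Finset.sum_congr rfl (fun a _ => by ring)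
    rw [Finset.sum_congr rfl h1, Finset.sum_comm, hμ]
    refine Finset.sum_congr rfl (fun a ha => ?_)
    rw [← Finset.sum_mul, e1 a ha]
  have m2 : EX p R (fun S => (∑ a ∈ S, g a) ^ 2) = μ ^ 2 + ∑ a ∈ R, p a * (1 - p a) * g a ^ 2 := by
    unfold EX
    have h1 : ∀ S ∈ R.powerset, pw p R S * (∑ a ∈ S, g a) ^ 2 = ∑ a ∈ R, ∑ b ∈ R,
        (pw p R S * ((if a ∈ S then 1 else 0) * (if b ∈ S then 1 else 0))) * (g a * g b) := by
      intro S hS
      rw [hlin S hS, sq, Finset.sum_mul_sum, Finset.mul_sum]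
      refine Finset.sum_congr rfl (fun a _ => ?_)
      rw [Finset.mul_sum]
      exact Finset.sum_congr rfl (fun b _ => by ring)
    rw [Finset.sum_congr rfl h1, Finset.sum_comm]
    have h2 : ∀ a ∈ R, ∑ S ∈ R.powerset, ∑ b ∈ R,
        (pw p R S * ((if a ∈ S then 1 else 0) * (if b ∈ S then 1 else 0))) * (g a * g b) =
        (p a * g a) * μ + p a * (1 - p a) * g a ^ 2 := by
      intro a ha
      rw [Finset.sum_comm]
      have h3 : ∀ b ∈ R, ∑ S ∈ R.powerset,
          (pw p R S * ((if a ∈ S then 1 else 0) * (if b ∈ S then 1 else 0))) * (g a * g b) =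
          (p a * g a) * (p b * g b) + (if a = b then p a * (1 - p a) * (g a * g b) else 0) := by
        intro b hb
        rw [← Finset.sum_mul, e2 a ha b hb]
        split_ifs <;> ring
      rw [Finset.sum_congr rfl h3, Finset.sum_add_distrib, ← Finset.mul_sum, Finset.sum_ite_eq,
        if_pos ha]
      ring
    rw [Finset.sum_congr rfl h2, Finset.sum_add_distrib, ← Finset.sum_mul]
    ring
  have h3 : EX p R (fun S => (∑ a ∈ S, g a - μ) ^ 2) =
      EX p R (fun S => (∑ a ∈ S, g a) ^ 2) + ((-2 * μ) * EX p R (fun S => ∑ a ∈ S, g a) +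
        μ ^ 2 * EX p R (fun _ => 1)) := by
    rw [← EX_const_mul, ← EX_const_mul, ← EX_add, ← EX_add]
    unfold EX
    exact Finset.sum_congr rfl (fun S _ => by ring)
  have h4 : EX p R (fun _ => 1) = 1 := by
    unfold EX
    simp only [mul_one]
    exact sum_pw p R
  rw [h3, m1, m2, h4]
  ring

end Pool.Agent.Helper38.SP
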