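import Pool.Agent.Helper38.SP.Sel

/-!
From finitely many cuts to all cuts.
-/

set_option autoImplicit false

open Finset

namespace Pool.Agent.Helper38.SP

theorem cuts_le {M L K0 : ℕ} (hL : 0 < L) (hM : M = K0 * L) (B : Finset ℕ) (p : ℕ → ℝ)
    (g : ℕ → ℂ) (hg : ∀ a, ‖g a‖ ≤ 1) {φ γ : ℂ} (hφ : ‖φ‖ ≤ 1) {sm C δ ε : ℝ} (hsm : 0 < sm)
    (hC : 0 ≤ C) (hε : 0 ≤ ε)
    (h1 : ∀ k ≤ K0, ‖∑ a ∈ B.filter (fun a => a < k * L), g a -
      ∑ a ∈ range (k * L), (p a : ℂ) * g a‖ ≤ δ)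
    (h1' : ∀ k ≤ K0, |((B.filter (fun a => a < k * L)).card : ℝ) - ∑ a ∈ range (k * L), p a| ≤ δ)
    (h2 : ∀ y ≤ M, ‖∑ a ∈ range y, (p a : ℂ) * g a - γ * y / sm‖ ≤ C / sm)
    (h2' : ∀ y ≤ M, |∑ a ∈ range y, p a - y / sm| ≤ C / sm)
    (hγ : ‖γ - φ‖ ≤ ε) (y : ℕ) (hy : y ≤ M) :
    ‖∑ a ∈ B.filter (fun a => a < y), g a - φ * (B.filter (fun a => a < y)).card‖ ≤
      2 * L / sm + 6 * C / sm + 6 * δ + ε * M / sm := by
  classical
  set k : ℕ := y / L with hk
  have hkL : k * L ≤ y := Nat.div_mul_le_self y L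
  have hkK : k ≤ K0 := by
    rw [hk]
    refine (Nat.div_le_iff_le_mul_add_pred hL).2 ?_
    rw [hM] at hy
    calc y ≤ K0 * L := hy
      _ = L * K0 := Nat.mul_comm _ _
      _ ≤ L * K0 + (L - 1) := Nat.le_add_right _ _
  have hkM : k * L ≤ M := by
    rw [hM]
    exact Nat.mul_le_mul_right _ hkK
  have hδ : 0 ≤ δ := (abs_nonneg _).trans (h1' 0 (Nat.zero_le _))
  have hCs : 0 ≤ C / sm := div_nonneg hC hsm.le
  -- number of elements between the cut and `y`
  have hsub : B.filter (fun a => a < k * L) ⊆ B.filter (fun a => a < y) := by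
    intro a ha
    rw [mem_filter] at ha ⊢
    exact ⟨ha.1, lt_of_lt_of_le ha.2 hkL⟩
  set n : ℝ := ((B.filter (fun a => a < y)).card : ℝ) with hn
  set n0 : ℝ := ((B.filter (fun a => a < k * L)).card : ℝ) with hn0
  have hdiff : n - n0 ≤ L / sm + 2 * (C / sm) + 2 * δ := by
    rcases Nat.lt_or_ge k K0 with hlt | hge
    · have hy1 : y < (k + 1) * L := by
        have := Nat.lt_div_mul_add hL (a := y)
        rw [← hk] at this
        calc y < k * L + L := this
          _ = (k + 1) * L := by ring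
      have hle : n ≤ ((B.filter (fun a => a < (k + 1) * L)).card : ℝ) := by
        have : (B.filter (fun a => a < y)).card ≤ (B.filter (fun a => a < (k + 1) * L)).card := by
          refine card_le_card (fun a ha => ?_)
          rw [mem_filter] at ha ⊢
          exact ⟨ha.1, lt_trans ha.2 hy1⟩
        rw [hn]
        exact_mod_cast this
      have a1 := (abs_le.1 (h1' (k + 1) hlt)).2
      have a2 := (abs_le.1 (h1' k hkK)).1
      have hk1M : (k + 1) * L ≤ M := by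
        rw [hM]
        exact Nat.mul_le_mul_right _ hlt
      have a3 := (abs_le.1 (h2' ((k + 1) * L) hk1M)).2
      have a4 := (abs_le.1 (h2' (k * L) hkM)).1
      have a5 : (((k + 1) * L : ℕ) : ℝ) / sm = ((k * L : ℕ) : ℝ) / sm + L / sm := by
        push_cast
        ring
      linarith
    · have hkeq : k = K0 := le_antisymm hkK hge
      have hyM : y = k * L := by
        rw [hkeq, ← hM]
        refine le_antisymm hy ?_
        rw [hM, ← hkeq]
        exact hkL
      have : n = n0 := by rw [hn, hn0, hyM]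
      rw [this, sub_self]
      positivity
  have hdiff0 : 0 ≤ n - n0 := by
    have : n0 ≤ n := by
      rw [hn, hn0]
      exact_mod_cast card_le_card hsub
    linarith
  have hX : ‖∑ a ∈ B.filter (fun a => a < y), g a - ∑ a ∈ B.filter (fun a => a < k * L), g a‖ ≤
      n - n0 := by
    rw [← Finset.sum_sdiff hsub, add_sub_cancel_right]
    refine (norm_sum_le _ _).trans ?_
    refine (Finset.sum_le_sum (fun a _ => hg a)).trans ?_
    rw [Finset.sum_const, nsmul_eq_mul, mul_one, card_sdiff_of_subset hsub,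
      Nat.cast_sub (card_le_card hsub)]
  have b1 := h1 k hkK
  have b2 := h2 (k * L) hkM
  have b3 : ‖(φ * n0 : ℂ) - φ * ((k * L : ℕ) : ℂ) / sm‖ ≤ δ + C / sm := by
    have e1 : (φ * n0 : ℂ) - φ * ((k * L : ℕ) : ℂ) / sm =
        φ * ((n0 - ((k * L : ℕ) : ℝ) / sm : ℝ) : ℂ) := by
      push_cast
      ring
    rw [e1, norm_mul, Complex.norm_real, Real.norm_eq_abs]
    have e2 : |n0 - ((k * L : ℕ) : ℝ) / sm| ≤ δ + C / sm := by
      have c1 := h1' k hkK
      have c2 := h2' (k * L) hkM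
      calc |n0 - ((k * L : ℕ) : ℝ) / sm| =
          |(n0 - ∑ a ∈ range (k * L), p a) + (∑ a ∈ range (k * L), p a - ((k * L : ℕ) : ℝ) / sm)| := by
            congr 1
            ring
        _ ≤ _ := (abs_add_le _ _).trans (add_le_add c1 c2)
    calc ‖φ‖ * |n0 - ((k * L : ℕ) : ℝ) / sm| ≤ 1 * (δ + C / sm) :=
          mul_le_mul hφ e2 (abs_nonneg _) zero_le_one
      _ = _ := one_mul _
  have b4 : ‖(γ - φ) * ((k * L : ℕ) : ℂ) / sm‖ ≤ ε * M / sm := by
    rw [norm_div, norm_mul, Complex.norm_natCast, Complex.norm_real, Real.norm_eq_abs,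
      abs_of_pos hsm]
    have : ((k * L : ℕ) : ℝ) ≤ M := by exact_mod_cast hkM
    gcongr
  have b5 : ‖φ * ((n - n0 : ℝ) : ℂ)‖ ≤ n - n0 := by
    rw [norm_mul, Complex.norm_real, Real.norm_eq_abs, abs_of_nonneg hdiff0]
    calc ‖φ‖ * (n - n0) ≤ 1 * (n - n0) := mul_le_mul_of_nonneg_right hφ hdiff0
      _ = _ := one_mul _
  set X : ℂ := ∑ a ∈ B.filter (fun a => a < y), g a with hXd
  set X0 : ℂ := ∑ a ∈ B.filter (fun a => a < k * L), g a with hX0d
  set Y : ℂ := ∑ a ∈ range (k * L), (p a : ℂ) * g a with hYd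
  have hfin : X - φ * ((B.filter (fun a => a < y)).card : ℂ) =
      (X - X0) + (X0 - Y) + (Y - γ * ((k * L : ℕ) : ℂ) / sm) + (γ - φ) * ((k * L : ℕ) : ℂ) / sm -
        ((φ * n0 : ℂ) - φ * ((k * L : ℕ) : ℂ) / sm) - φ * ((n - n0 : ℝ) : ℂ) := by
    rw [hn, hn0]
    push_cast
    ring
  rw [hfin]
  calc _ ≤ ‖X - X0‖ + ‖X0 - Y‖ + ‖Y - γ * ((k * L : ℕ) : ℂ) / sm‖ +
        ‖(γ - φ) * ((k * L : ℕ) : ℂ) / sm‖ + ‖(φ * n0 : ℂ) - φ * ((k * L : ℕ) : ℂ) / sm‖ +
        ‖φ * ((n - n0 : ℝ) : ℂ)‖ := by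
        refine (norm_sub_le _ _).trans (add_le_add ?_ le_rfl)
        refine (norm_sub_le _ _).trans (add_le_add ?_ le_rfl)
        refine (norm_add_le _ _).trans (add_le_add ?_ le_rfl)
        refine (norm_add_le _ _).trans (add_le_add ?_ le_rfl)
        exact norm_add_le _ _
    _ ≤ (n - n0) + δ + C / sm + ε * M / sm + (δ + C / sm) + (n - n0) := by
        gcongr
    _ ≤ _ := by
        have e3 : 2 * (L : ℝ) / sm = 2 * (L / sm) := by ring
        have e4 : 6 * C / sm = 6 * (C / sm) := by ring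
        rw [e3, e4]
        linarith

end Pool.Agent.Helper38.SP
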