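import Pool.Agent.Helper38.SP.En

/-!
Selection of a random subset with small energy and prescribed linear statistics.
-/

set_option autoImplicit false

open Finset

namespace Pool.Agent.Helper38.SP

/-- second moment of a complex linear statistic -/
theorem EX_var_complex {p : ℕ → ℝ} (h0 : ∀ a, 0 ≤ p a) (R : Finset ℕ) (g : ℕ → ℂ)
    (hg : ∀ a, ‖g a‖ ≤ 1) :
    EX p R (fun S => ‖∑ a ∈ S, g a - ∑ a ∈ R, (p a : ℂ) * g a‖ ^ 2) ≤ ∑ a ∈ R, p a := by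
  have h1 : ∀ S : Finset ℕ, ‖∑ a ∈ S, g a - ∑ a ∈ R, (p a : ℂ) * g a‖ ^ 2 =
      (∑ a ∈ S, (g a).re - ∑ a ∈ R, p a * (g a).re) ^ 2 +
        (∑ a ∈ S, (g a).im - ∑ a ∈ R, p a * (g a).im) ^ 2 := by
    intro S
    rw [← Complex.normSq_eq_norm_sq, Complex.normSq_apply, Complex.sub_re, Complex.sub_im,
      Complex.re_sum, Complex.re_sum, Complex.im_sum, Complex.im_sum]
    simp only [Complex.mul_re, Complex.mul_im, Complex.ofReal_re, Complex.ofReal_im, zero_mul,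
      sub_zero, add_zero]
    ring
  have h2 : EX p R (fun S => ‖∑ a ∈ S, g a - ∑ a ∈ R, (p a : ℂ) * g a‖ ^ 2) =
      EX p R (fun S => (∑ a ∈ S, (g a).re - ∑ a ∈ R, p a * (g a).re) ^ 2 +
        (∑ a ∈ S, (g a).im - ∑ a ∈ R, p a * (g a).im) ^ 2) := by
    congr 1
    funext S
    exact h1 S
  rw [h2, EX_add, EX_var p R (fun a => (g a).re), EX_var p R (fun a => (g a).im),
    ← Finset.sum_add_distrib]
  refine Finset.sum_le_sum (fun a _ => ?_)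
  have h3 : (g a).re ^ 2 + (g a).im ^ 2 ≤ 1 := by
    have h4 : (g a).re ^ 2 + (g a).im ^ 2 = ‖g a‖ ^ 2 := by
      rw [← Complex.normSq_eq_norm_sq, Complex.normSq_apply]
      ring
    rw [h4]
    have := hg a
    have := norm_nonneg (g a)
    nlinarith
  have h5 : p a * (1 - p a) * (g a).re ^ 2 + p a * (1 - p a) * (g a).im ^ 2 =
      p a * (1 - p a) * ((g a).re ^ 2 + (g a).im ^ 2) := by ring
  rw [h5]
  have h6 := h0 a
  have h7 : 0 ≤ (g a).re ^ 2 + (g a).im ^ 2 := by positivity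
  nlinarith [mul_nonneg (mul_nonneg h6 h6) h7]

/-- selection of a good subset -/
theorem select {ι : Type} {p : ℕ → ℝ} (h0 : ∀ a, 0 ≤ p a) (h1 : ∀ a, p a ≤ 1) (R : Finset ℕ)
    (F : Finset ι) (g : ι → ℕ → ℂ) (hg : ∀ i a, ‖g i a‖ ≤ 1) {E Q P δ : ℝ}
    (hE : EX p R (fun S => ((quad S).card : ℝ)) ≤ E) (hP : ∑ a ∈ R, p a ≤ P)
    (hQ : 0 < Q) (hδ : 0 < δ) (hlt : E / Q + F.card * P / δ ^ 2 < 1) :
    ∃ B ⊆ R, ((quad B).card : ℝ) ≤ Q ∧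
      ∀ i ∈ F, ‖∑ a ∈ B, g i a - ∑ a ∈ R, (p a : ℂ) * g i a‖ ≤ δ := by
  have hex : EX p R (fun S => Q⁻¹ * ((quad S).card : ℝ) + ∑ i ∈ F, (δ ^ 2)⁻¹ *
      ‖∑ a ∈ S, g i a - ∑ a ∈ R, (p a : ℂ) * g i a‖ ^ 2) < 1 := by
    rw [EX_add, EX_const_mul, EX_sum]
    have h2 : ∑ i ∈ F, EX p R (fun S => (δ ^ 2)⁻¹ *
        ‖∑ a ∈ S, g i a - ∑ a ∈ R, (p a : ℂ) * g i a‖ ^ 2) ≤ ∑ _i ∈ F, (δ ^ 2)⁻¹ * P := by
      refine Finset.sum_le_sum (fun i _ => ?_)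
      rw [EX_const_mul]
      exact mul_le_mul_of_nonneg_left ((EX_var_complex h0 R (g i) (hg i)).trans hP)
        (by positivity)
    rw [Finset.sum_const, nsmul_eq_mul] at h2
    have h3 : Q⁻¹ * EX p R (fun S => ((quad S).card : ℝ)) ≤ Q⁻¹ * E :=
      mul_le_mul_of_nonneg_left hE (by positivity)
    have h4 : Q⁻¹ * E + F.card * ((δ ^ 2)⁻¹ * P) = E / Q + F.card * P / δ ^ 2 := by
      field_simp
    linarith
  obtain ⟨B, hBR, hB⟩ := exists_lt h0 h1 R hex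
  have hsum : ∀ i ∈ F, 0 ≤ (δ ^ 2)⁻¹ * ‖∑ a ∈ B, g i a - ∑ a ∈ R, (p a : ℂ) * g i a‖ ^ 2 :=
    fun i _ => by positivity
  refine ⟨B, hBR, ?_, ?_⟩
  · have h2 := Finset.sum_nonneg hsum
    have h3 : Q⁻¹ * ((quad B).card : ℝ) ≤ 1 := by
      linarith
    rwa [inv_mul_le_iff₀ hQ, mul_one] at h3
  · intro i hi
    have h2 := Finset.single_le_sum hsum hi
    have h3 : 0 ≤ Q⁻¹ * ((quad B).card : ℝ) := by positivity
    have h4 : (δ ^ 2)⁻¹ * ‖∑ a ∈ B, g i a - ∑ a ∈ R, (p a : ℂ) * g i a‖ ^ 2 ≤ 1 := by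
      linarith
    rw [inv_mul_le_iff₀ (by positivity), mul_one] at h4
    exact le_of_pow_le_pow_left₀ (by norm_num) hδ.le h4

end Pool.Agent.Helper38.SP
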